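import Pool.Agent.H229.Sym.Sign

/-!
Construction of normalised trees of tensors, with twisted slices.
-/

namespace Pool.Agent.H229.Sym

open Tr Module Pool.Agent.H229

variable {K : Type*} [Field K]

/-- twisted restriction to a slice -/
def tsl (K : Type*) [Field K] (π : List (Option Bool)) : Fn K →ₗ[K] Fn K where
  toFun u b := sg π b • u (fill π b)
  map_add' u v := by funext b; simp only [Pi.add_apply, smul_add]
  map_smul' c u := by
    funext b
    simp only [Pi.smul_apply, smul_eq_mul, RingHom.id_apply, Units.smul_def, zsmul_eq_mul]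
    ring

@[simp] lemma tsl_apply (π : List (Option Bool)) (u : Fn K) (b : ℕ → Bool) :
    tsl K π u b = sg π b • u (fill π b) := rfl

lemma exists_trivial' (n : ℕ) : ∃ π : List (Option Bool), π.length = n ∧ free π = n ∧
    nct π = 0 ∧ (∀ b, sg π b = 1) ∧ ∀ b : ℕ → Bool, ∀ m < n, fill π b m = b m := by
  induction n with
  | zero => exact ⟨[], rfl, rfl, rfl, fun b => rfl, fun b m hm => by omega⟩
  | succ n ih =>
    obtain ⟨π, h1, h2, h3, h4, h5⟩ := ih
    refine ⟨none :: π, by simp [h1], by simp [free, h2], by simp [nct, h3], fun b => ?_,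
      fun b m hm => ?_⟩
    · simp only [sg, h3, pow_zero, ite_self, one_mul]
      exact h4 _
    · cases m with
      | zero => rfl
      | succ m => simp only [fill]; exact h5 _ m (by omega)

theorem build {R : ℕ} (U : ℕ → ℕ → Submodule K (Fn K))
    (hfd : ∀ o l, FiniteDimensional K (U o l))
    (hdep : ∀ o l, ∀ u ∈ U o l, ∀ b b' : ℕ → Bool, (∀ n < l, b n = b' n) → u b = u b')
    (hsplit : ∀ o l₁ l₂, ∀ u ∈ U o (l₁ + l₂), ∀ b : ℕ → Bool,
      (fun b₁ => u (join l₁ b₁ b)) ∈ U o l₁ ∧ (fun b₂ => u (join l₁ b b₂)) ∈ U (o + l₁) l₂)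
    (T : Tr Unit) :
    ∀ (o : ℕ), (∀ f o', SubAt T f o' → finrank K (U (o + o') f.leaves) ≤ R) →
      (∀ g o₁, SubAt T g o₁ → ∀ f o₂, DescAt g.ht g f o₂ → f.ht = g.ht →
        ∃ π : List (Option Bool), π.length = g.leaves ∧ free π = f.leaves ∧ Even (nct π) ∧
          (U (o + o₁) g.leaves).map (tsl K π) = U (o + o₁ + o₂) f.leaves) →
      ∀ v : Fin R → Fn K, Submodule.span K (Set.range v) = U o T.leaves →
      ∀ Req : Tr Unit → ℕ → (Fin R → Fn K) → Prop,
        (∀ f o', Exp T f o' → ∃ w : Fin R → Fn K,
          Submodule.span K (Set.range w) = U (o + o') f.leaves ∧ Req f o' w) →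
      ∃ t : Tr (Fin (cR R) → K), t.shape = T ∧ (∀ b a, evalT t b a = v a b) ∧ Normal t ∧
        ∀ f o', Exp t f o' → Req f.shape o' (fun a b => evalT f b a) := by
  have hshl : ∀ t : Tr (Fin (cR R) → K), t.shape.leaves = t.leaves := fun t => leaves_map _ _
  have hshh : ∀ t : Tr (Fin (cR R) → K), t.shape.ht = t.ht := by
    intro t; cases t <;> rfl
  have hshd : ∀ (s : ℕ) (f t : Tr (Fin (cR R) → K)), Desc s f t → Desc s f.shape t.shape := by
    intro s f t h
    induction h with
    | refl h => exact .refl _ (by rw [hshh]; exact h)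
    | left h _ ih => exact .left h ih
    | right h _ ih => exact .right h ih
  induction T with
  | leaf h x =>
    intro o _ _ v hv Req _
    have hleaf : (Tr.leaf h x).leaves = 1 := rfl
    refine ⟨Tr.leaf h (fun q => Sum.elim (fun p => v p.1 (fun _ => p.2)) (fun _ => 0)
      ((enc R).symm q)), rfl, ?_, ?_, ?_⟩
    · intro b a
      simp only [evalT, Equiv.symm_apply_apply, Sum.elim_inl]
      refine hdep o 1 (v a) ?_ _ _ ?_
      · rw [← hleaf, ← hv]; exact Submodule.subset_span ⟨a, rfl⟩
      · intro n hn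
        have : n = 0 := by omega
        rw [this]
    · intro f hd hf
      cases hd with
      | refl _ =>
        obtain ⟨π, h1, h2, h3, h4, h5⟩ := exists_trivial' 1
        refine ⟨π, 1, h1, h2, by rw [h3]; exact ⟨0, rfl⟩, fun b a => ?_⟩
        rw [h4, mul_one, one_smul]
        refine evalT_congr _ (fun n hn => ?_) a
        exact (h5 b n hn).symm
    · intro f o' he; cases he
  | node h x l r ihl ihr =>
    intro o hdim hlink v hv Req hReq
    set T : Tr Unit := Tr.node h x l r with hT
    have hTl : T.leaves = l.leaves + r.leaves := rfl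
    -- patterns from the root
    have hroot : ∀ f o', DescAt h T f o' → f.ht = h →
        ∃ π : List (Option Bool), (π.length = T.leaves ∧ Even (nct π)) ∧ free π = f.leaves ∧
          Submodule.span K (Set.range fun a => tsl K π (v a)) = U (o + o') f.leaves := by
      intro f o' hd hf
      obtain ⟨π, h1, h2, hev, h3⟩ := hlink T 0 (.refl _) f o' hd hf
      refine ⟨π, ⟨h1, hev⟩, h2, ?_⟩
      simp only [add_zero] at h3
      rw [← h3, ← hv, Submodule.map_span, ← Set.range_comp]
      rfl
    have hany : ∀ f o', SubAt T f o' → ∃ w : Fin R → Fn K,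
        Submodule.span K (Set.range w) = U (o + o') f.leaves := by
      intro f o' hs
      have := hfd (o + o') f.leaves
      exact exists_span _ (hdim f o' hs)
    -- the left child
    obtain ⟨vl, hvl, hvl1, hvl2⟩ : ∃ w : Fin R → Fn K,
        Submodule.span K (Set.range w) = U o l.leaves ∧ (l.ht < h → Req l 0 w) ∧
        (l.ht = h → ∃ π : List (Option Bool), (π.length = T.leaves ∧ Even (nct π)) ∧ free π = l.leaves ∧
          w = fun a => tsl K π (v a)) := by
      rcases lt_trichotomy l.ht h with h1 | h1 | h1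
      · obtain ⟨w, hw1, hw2⟩ := hReq l 0 (.left₀ h1)
        exact ⟨w, hw1, fun _ => hw2, fun h2 => by omega⟩
      · obtain ⟨π, h2, h3, h4⟩ := hroot l 0 (.left le_rfl (.refl _ h1.ge)) h1
        exact ⟨_, h4, fun h5 => by omega, fun _ => ⟨π, h2, h3, rfl⟩⟩
      · obtain ⟨w, hw⟩ := hany l 0 (.left (.refl _))
        exact ⟨w, hw, fun h2 => by omega, fun h2 => by omega⟩
    obtain ⟨tl, htl1, htl2, htl3, htl4⟩ := ihl o (fun f o' hs => hdim f o' (.left hs))
      (fun g o₁ hs f o₂ hd hf => hlink g o₁ (.left hs) f o₂ hd hf) vl hvl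
      (fun f o' w => (f.ht < h → Req f o' w) ∧ (f.ht = h → ∃ π : List (Option Bool),
        (π.length = T.leaves ∧ Even (nct π)) ∧ free π = f.leaves ∧ w = fun a => tsl K π (v a)))
      (by
        intro f o' he
        rcases lt_trichotomy f.ht h with h1 | h1 | h1
        · obtain ⟨w, hw1, hw2⟩ := hReq f o' (.left h1 he)
          exact ⟨w, hw1, fun _ => hw2, fun h2 => by omega⟩
        · obtain ⟨π, h2, h3, h4⟩ := hroot f o' (.left le_rfl (h1 ▸ he.descAt)) h1
          exact ⟨_, h4, fun h5 => by omega, fun _ => ⟨π, h2, h3, rfl⟩⟩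
        · obtain ⟨w, hw⟩ := hany f o' (.left he.subAt)
          exact ⟨w, hw, fun h2 => by omega, fun h2 => by omega⟩)
    -- the right child
    obtain ⟨vr, hvr, hvr1, hvr2⟩ : ∃ w : Fin R → Fn K,
        Submodule.span K (Set.range w) = U (o + l.leaves) r.leaves ∧
        (r.ht < h → Req r l.leaves w) ∧
        (r.ht = h → ∃ π : List (Option Bool), (π.length = T.leaves ∧ Even (nct π)) ∧ free π = r.leaves ∧
          w = fun a => tsl K π (v a)) := by
      rcases lt_trichotomy r.ht h with h1 | h1 | h1
      · obtain ⟨w, hw1, hw2⟩ := hReq r _ (.right₀ h1)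
        exact ⟨w, hw1, fun _ => hw2, fun h2 => by omega⟩
      · obtain ⟨π, h2, h3, h4⟩ := hroot r _ (.right le_rfl (.refl _ h1.ge)) h1
        exact ⟨_, h4, fun h5 => by omega, fun _ => ⟨π, h2, h3, rfl⟩⟩
      · obtain ⟨w, hw⟩ := hany r _ (.right (.refl _))
        exact ⟨w, hw, fun h2 => by omega, fun h2 => by omega⟩
    obtain ⟨tr, htr1, htr2, htr3, htr4⟩ := ihr (o + l.leaves)
      (fun f o' hs => by
        have := hdim f _ (.right hs)
        rwa [← add_assoc] at this)
      (fun g o₁ hs f o₂ hd hf => by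
        have := hlink g _ (.right hs) f o₂ hd hf
        rwa [← add_assoc] at this) vr hvr
      (fun f o' w => (f.ht < h → Req f (l.leaves + o') w) ∧
        (f.ht = h → ∃ π : List (Option Bool),
        (π.length = T.leaves ∧ Even (nct π)) ∧ free π = f.leaves ∧ w = fun a => tsl K π (v a)))
      (by
        intro f o' he
        rcases lt_trichotomy f.ht h with h1 | h1 | h1
        · obtain ⟨w, hw1, hw2⟩ := hReq f _ (.right h1 he)
          exact ⟨w, by rw [hw1, add_assoc], fun _ => hw2, fun h2 => by omega⟩
        · obtain ⟨π, h2, h3, h4⟩ := hroot f _ (.right le_rfl (h1 ▸ he.descAt)) h1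
          exact ⟨_, by rw [h4, add_assoc], fun h5 => by omega, fun _ => ⟨π, h2, h3, rfl⟩⟩
        · obtain ⟨w, hw⟩ := hany f _ (.right he.subAt)
          exact ⟨w, by rw [hw, add_assoc], fun h2 => by omega, fun h2 => by omega⟩)
    -- the tensor at the root
    have := hfd o l.leaves
    have hM : ∀ a : Fin R, ∃ M : Fin R → Fin R → K, ∀ b₁ b₂,
        v a (join l.leaves b₁ b₂) = ∑ i, ∑ j, M i j * vl i b₁ * vr j b₂ := by
      intro a
      have hva : v a ∈ U o (l.leaves + r.leaves) := by
        rw [← hTl, ← hv]; exact Submodule.subset_span ⟨a, rfl⟩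
      exact exists_tensor _ _ vl vr hvl hvr (fun b₁ b₂ => v a (join l.leaves b₁ b₂))
        (fun b₂ => (hsplit o _ _ _ hva b₂).1) (fun b₁ => (hsplit o _ _ _ hva b₁).2)
    choose M hM using hM
    have htll : tl.leaves = l.leaves := by rw [← hshl, htl1]
    have htrl : tr.leaves = r.leaves := by rw [← hshl, htr1]
    have htlh : tl.ht = l.ht := by rw [← hshh, htl1]
    have htrh : tr.ht = r.ht := by rw [← hshh, htr1]
    set t : Tr (Fin (cR R) → K) := Tr.node h (fun q => Sum.elim (fun _ => 0)
      (fun p => M p.1 p.2.1 p.2.2) ((enc R).symm q)) tl tr with ht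
    have hev : ∀ b a, evalT t b a = v a b := by
      intro b a
      rw [ht]
      simp only [evalT, Equiv.symm_apply_apply, Sum.elim_inr, htl2, htr2, htll]
      rw [← hM]
      rw [join_self]
    refine ⟨t, by rw [ht, hT, ← htl1, ← htr1]; rfl, hev, ⟨?_, htl3, htr3⟩, ?_⟩
    · -- normality at the root
      have hslice : ∀ (g : Tr (Fin (cR R) → K)) (π : List (Option Bool)),
          (fun a b => evalT g b a) = (fun a => tsl K π (v a)) →
          ∀ b a, evalT g b a = sg π b • evalT t (fill π b) a := by
        intro g π hg b a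
        rw [hev]
        exact congrFun (congrFun hg a) b
      have hTt : t.leaves = T.leaves := by rw [ht, hTl, ← htll, ← htrl]; rfl
      -- it suffices to treat the first subtree of the same height
      have hfirst : ∀ (g f : Tr (Fin (cR R) → K)), Normal g → g.ht = h → Desc h f g → f.ht = h →
          (∃ π : List (Option Bool), (π.length = T.leaves ∧ Even (nct π)) ∧
            free π = g.leaves ∧ (fun a b => evalT g b a) = (fun a => tsl K π (v a))) →
          ∃ (π : List (Option Bool)) (ε : ℤˣ), π.length = t.leaves ∧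
            free π = f.leaves ∧ Even (nct π) ∧
            ∀ b a, evalT f b a = (ε * sg π b) • evalT t (fill π b) a := by
        rintro g f hg hgh hd hf ⟨π, ⟨h1, hev1⟩, h2, h3⟩
        obtain ⟨ρ, ε, h4, h5, hev2, h6⟩ := hg.at f (hgh ▸ hd) (by rw [hf, hgh])
        obtain ⟨ε', h7⟩ := sg_pcomp π ρ (by omega)
        refine ⟨pcomp π ρ, ε * ε', by rw [pcomp_length, h1, hTt],
          by rw [pcomp_free _ _ (by omega), h5],
          by rw [nct_pcomp _ _ (by omega)]; exact hev1.add hev2, fun b a => ?_⟩
        rw [h6, hslice g π h3, fill_pcomp _ _ (by omega), smul_smul]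
        congr 1
        have h8 := h7 b
        calc ε * sg ρ b * sg π (fill ρ b) = ε * (sg π (fill ρ b) * sg ρ b) := by ac_rfl
          _ = ε * ε' * sg (pcomp π ρ) b := by rw [h8]; ac_rfl
      intro f hd hf
      have hth : t.ht = h := rfl
      rw [hth] at hd hf
      cases hd with
      | refl _ =>
        obtain ⟨π, h1, h2, h3, h4, h5⟩ := exists_trivial' t.leaves
        refine ⟨π, 1, h1, h2, by rw [h3]; exact ⟨0, rfl⟩, fun b a => ?_⟩
        rw [h4, mul_one, one_smul]
        exact evalT_congr _ (fun n hn => (h5 b n hn).symm) a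
      | left _ hd =>
        rcases hd.exists_exp hf with h1 | ⟨g, o', h1, h2, h3⟩
        · refine hfirst tl f htl3 h1 hd hf ?_
          obtain ⟨π, h2, h3, h4⟩ := hvl2 (by rw [← htlh, h1])
          refine ⟨π, h2, by rw [h3, htll], ?_⟩
          rw [← h4]
          funext a b
          exact htl2 b a
        · refine hfirst g f (htl3.desc h1.desc) h2 h3 hf ?_
          obtain ⟨π, h4, h5, h6⟩ := (htl4 g o' h1).2 (by rw [hshh, h2])
          exact ⟨π, h4, by rw [h5, hshl], h6⟩
      | right _ hd =>
        rcases hd.exists_exp hf with h1 | ⟨g, o', h1, h2, h3⟩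
        · refine hfirst tr f htr3 h1 hd hf ?_
          obtain ⟨π, h2, h3, h4⟩ := hvr2 (by rw [← htrh, h1])
          refine ⟨π, h2, by rw [h3, htrl], ?_⟩
          rw [← h4]
          funext a b
          exact htr2 b a
        · refine hfirst g f (htr3.desc h1.desc) h2 h3 hf ?_
          obtain ⟨π, h4, h5, h6⟩ := (htr4 g o' h1).2 (by rw [hshh, h2])
          exact ⟨π, h4, by rw [h5, hshl], h6⟩
    · intro f o' he
      rw [ht] at he
      cases he with
      | left₀ h1 =>
        have := hvl1 (by rw [← htlh]; exact h1)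
        rw [htl1]
        have e : (fun a b => evalT tl b a) = vl := by
          funext a b; exact htl2 b a
        rw [e]; exact this
      | right₀ h1 =>
        have := hvr1 (by rw [← htrh]; exact h1)
        rw [htr1, htll]
        have e : (fun a b => evalT tr b a) = vr := by
          funext a b; exact htr2 b a
        rw [e]; exact this
      | left h1 he => exact (htl4 f o' he).1 (by rw [hshh]; exact h1)
      | @right _ _ _ _ _ o'' h1 he =>
        rw [htll]
        exact (htr4 f o'' he).1 (by rw [hshh]; exact h1)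

end Pool.Agent.H229.Sym
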