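import Pool.Agent.H229.Moves
import Pool.Agent.H229.Transfer

/-!
Products of transpositions.
-/

namespace Pool.Agent.H229.Sym

open MvPolynomial Pool.Agent.H229

universe u

/-- The action on coordinates of the transposition matrix exchanging the basis vectors `x_a` and
`x_b`. -/
noncomputable def trans (k : Type u) [Field k] (a b : ℤ) (ha : a ≠ 0) (hb : b ≠ 0) :
    MvPolynomial Idx k →ₐ[k] MvPolynomial Idx k :=
  rename (Idx.swap a b ha hb)

/-- products of transpositions -/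
inductive Gen (k : Type u) [Field k] : (MvPolynomial Idx k →ₐ[k] MvPolynomial Idx k) → Prop
  | id : Gen k (AlgHom.id k _)
  | comp (Γ : MvPolynomial Idx k →ₐ[k] MvPolynomial Idx k) (hΓ : Gen k Γ) (a b : ℤ) (ha : a ≠ 0)
      (hb : b ≠ 0) (hab : a ≠ b) : Gen k (Γ.comp (trans k a b ha hb))

variable {k : Type u} [Field k]

lemma Gen.mul {Γ₁ Γ₂ : MvPolynomial Idx k →ₐ[k] MvPolynomial Idx k} (h₁ : Gen k Γ₁)
    (h₂ : Gen k Γ₂) : Gen k (Γ₁.comp Γ₂) := by
  induction h₂ with
  | id => rwa [AlgHom.comp_id]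
  | comp Γ _ a b ha hb hab ih =>
    rw [← AlgHom.comp_assoc]
    exact .comp _ ih a b ha hb hab

lemma Gen.trans {a b : ℤ} (ha : a ≠ 0) (hb : b ≠ 0) (hab : a ≠ b) :
    Gen k (Sym.trans k a b ha hb) := by
  have := Gen.comp (AlgHom.id k (MvPolynomial Idx k)) .id a b ha hb hab
  rwa [AlgHom.id_comp] at this

lemma Gen.mem {C : Set (PrimeSpectrum (MvPolynomial Idx k))}
    (hst : ∀ a b : ℤ, ∀ (ha : a ≠ 0) (hb : b ≠ 0), a ≠ b → ∀ P ∈ C,
      PrimeSpectrum.comap (Sym.trans k a b ha hb).toRingHom P ∈ C)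
    {Γ : MvPolynomial Idx k →ₐ[k] MvPolynomial Idx k} (h : Gen k Γ) :
    ∀ P ∈ C, PrimeSpectrum.comap Γ.toRingHom P ∈ C := by
  induction h with
  | id =>
    intro P hP
    exact hP
  | comp Γ _ a b ha hb hab ih =>
    intro P hP
    exact hst a b ha hb hab _ (ih P hP)

/-- representation of an endomorphism by an injection of the labels of level `N` -/
structure Rep (N : ℕ) (τ : ℤ → ℤ)
    (Γ : MvPolynomial Idx k →ₐ[k] MvPolynomial Idx k) : Prop where
  maps : ∀ a ∈ lab N N, τ a ∈ lab N N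
  inj : Function.Injective τ
  act : ∀ s s' : Idx, AtLevel N N s → AtLevel N N s' → toL N s' = (toL N s).map τ →
    Γ (X s) = X s'

lemma Rep.mul {N : ℕ} {τ₁ τ₂ : ℤ → ℤ}
    {Γ₁ Γ₂ : MvPolynomial Idx k →ₐ[k] MvPolynomial Idx k} (h₁ : Rep N τ₁ Γ₁)
    (h₂ : Rep N τ₂ Γ₂) :
    Rep N (τ₁ ∘ τ₂) (Γ₁.comp Γ₂) := by
  refine ⟨fun a ha => h₁.maps _ (h₂.maps _ ha), h₁.inj.comp h₂.inj, ?_⟩
  intro s s'' hs hs'' he
  obtain ⟨s', hs', he'⟩ := Rep.exists_mid h₂.maps h₂.inj hs
  rw [AlgHom.comp_apply, h₂.act s s' hs hs' he',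
    h₁.act s' s'' hs' hs'' (by rw [he, he', List.map_map])]

lemma Rep.swap {N : ℕ} {a b : ℤ} (ha : a ∈ lab N N) (hb : b ∈ lab N N) (ha' : a ≠ 0)
    (hb' : b ≠ 0) :
    Rep N (Equiv.swap a b) (Sym.trans k a b ha' hb') := by
  refine ⟨?_, (Equiv.swap a b).injective, ?_⟩
  · intro c hc
    rw [Equiv.swap_apply_def]
    split_ifs
    · exact hb
    · exact ha
    · exact hc
  · intro s s' hs hs' he
    have e : s.swap a b ha' hb' = s' := by
      apply Idx.ext'
      intro j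
      change Equiv.swap a b (s.seq j) = s'.seq j
      by_cases hj : j < N
      · rw [← toL_get N s' j hj, ← toL_get N s j hj]
        simp only [he, List.getElem_map]
      · rw [hs.1 j (by omega), hs'.1 j (by omega), Equiv.swap_apply_of_ne_of_ne]
        · rw [mem_lab] at ha; omega
        · rw [mem_lab] at hb; omega
    rw [Sym.trans, rename_X, e]

lemma Rep.one {N : ℕ} : Rep (k := k) N id (AlgHom.id k _) := by
  refine ⟨fun a ha => ha, Function.injective_id, ?_⟩
  intro s s' hs hs' he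
  rw [List.map_id] at he
  have e : s' = s := hs'.ext hs he
  subst e
  rfl

/-- Every injection is available. -/
theorem Rep.all {N : ℕ} : ∀ (A B : List ℤ), A.Nodup → B.Nodup → A.length = B.length →
    (∀ a ∈ A, a ∈ lab N N) → (∀ b ∈ B, b ∈ lab N N) →
    ∃ (τ : ℤ → ℤ) (Γ : MvPolynomial Idx k →ₐ[k] MvPolynomial Idx k),
      Gen k Γ ∧ Rep N τ Γ ∧ A.map τ = B := by
  intro A
  induction A with
  | nil =>
    intro B _ _ hlen _ _
    have : B = [] := List.length_eq_zero_iff.1 hlen.symm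
    subst this
    exact ⟨_, _, .id, Rep.one, rfl⟩
  | cons a A ih =>
    intro B hA hB hlen hAl hBl
    cases B with
    | nil => simp at hlen
    | cons b B =>
      rw [List.nodup_cons] at hA hB
      obtain ⟨τ, Γ, g, r, hm⟩ := ih B hA.2 hB.2 (by simpa using hlen)
        (fun c hc => hAl c (by simp [hc])) (fun c hc => hBl c (by simp [hc]))
      have hc := r.maps a (hAl a (by simp))
      have hcB : τ a ∉ B := by
        rw [← hm, List.mem_map]
        rintro ⟨a', ha', he⟩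
        exact hA.1 (r.inj he ▸ ha')
      have hb := hBl b (by simp)
      by_cases h : τ a = b
      · exact ⟨τ, Γ, g, r, by rw [List.map_cons, hm, h]⟩
      · refine ⟨_, _, (Gen.trans (mem_lab.1 hc).1 (mem_lab.1 hb).1 h).mul g,
          (Rep.swap (k := k) hc hb (mem_lab.1 hc).1 (mem_lab.1 hb).1).mul r, ?_⟩
        rw [List.map_cons, Function.comp_apply, Equiv.swap_apply_left, ← List.map_map, hm]
        congr 1
        conv_rhs => rw [← List.map_id B]
        refine List.map_congr_left fun c hcB' => ?_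
        rw [id, Equiv.swap_apply_of_ne_of_ne]
        · rintro rfl; exact hcB hcB'
        · rintro rfl; exact hB.1 hcB'

lemma trans_trans (a b : ℤ) (ha : a ≠ 0) (hb : b ≠ 0) :
    (Sym.trans k a b ha hb).comp (Sym.trans k a b ha hb) = AlgHom.id k _ := by
  apply algHom_ext
  intro s
  rw [AlgHom.comp_apply, AlgHom.id_apply, Sym.trans, rename_X, rename_X]
  congr 1
  apply Idx.ext'
  intro j
  change Equiv.swap a b (Equiv.swap a b (s.seq j)) = s.seq j
  rw [Equiv.swap_apply_self]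

lemma Gen.inv {Γ : MvPolynomial Idx k →ₐ[k] MvPolynomial Idx k} (h : Gen k Γ) :
    ∃ Γ', Gen k Γ' ∧ Γ.comp Γ' = AlgHom.id k _ := by
  induction h with
  | id => exact ⟨_, .id, rfl⟩
  | comp Γ _ a b ha hb hab ih =>
    obtain ⟨Γ', h1, h2⟩ := ih
    refine ⟨(Sym.trans k a b ha hb).comp Γ', (Gen.trans ha hb hab).mul h1, ?_⟩
    have h3 : (Sym.trans k a b ha hb).comp ((Sym.trans k a b ha hb).comp Γ') = Γ' := by
      rw [← AlgHom.comp_assoc, trans_trans, AlgHom.id_comp]
    rw [AlgHom.comp_assoc, h3, h2]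

lemma Gen.rep {Γ : MvPolynomial Idx k →ₐ[k] MvPolynomial Idx k} (h : Gen k Γ) :
    ∃ (N₀ : ℕ) (τ : ℤ → ℤ), ∀ N, N₀ ≤ N → Rep N τ Γ := by
  induction h with
  | id => exact ⟨0, _root_.id, fun N _ => Rep.one⟩
  | comp Γ _ a b ha hb hab ih =>
    obtain ⟨N₀, τ, h⟩ := ih
    refine ⟨N₀ + a.natAbs + b.natAbs, _, fun N hN => (h N (by omega)).mul
      (Rep.swap (N := N) (by rw [mem_lab]; omega) (by rw [mem_lab]; omega) ha hb)⟩

end Pool.Agent.H229.Sym
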