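import Pool.Agent.H229.Sym.Plu
import Pool.Agent.H229.Norm

/-!
Normalised trees of tensors for Plücker vectors of bounded branch-width, with twisted slices.
-/

namespace Pool.Agent.H229.Sym

open Module BT Pool.Agent.H229

variable {α : Type*} [DecidableEq α]

variable [Fintype α] {K : Type*} [Field K] {V : Type*} [AddCommGroup V] [Module K V]

/-- **Normalised trees for vectors of bounded branch-width.** -/
theorem exists_normal [FiniteDimensional K V] {φ : ExteriorAlgebra K V →ₗ[K] K} (hφ : IsVol φ)
    (x : α → V) (hx : Submodule.span K (Set.range x) = ⊤) (w : ℕ) (a₀ : Fin (2 ^ w))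
    (t₀ : BT α) (ht₀ : t₀.Part) (hf₀ : t₀.fs = Finset.univ)
    (hw₀ : ∀ Y ∈ t₀.nodes, conn (rkx K x) Y ≤ w) :
    ∃ ℓ : List α, ℓ.Nodup ∧ (∀ a, a ∈ ℓ) ∧ ∃ T : Tr (Fin (cR (2 ^ w)) → K),
      T.leaves = ℓ.length ∧ T.Bdd (2 * w + 2) ∧ Normal T ∧
      ∀ b, evalT T b a₀ = φ (prodL K (sel (ℓ.map x) b)) := by
  classical
  set lam := conn (rkx K x) with hlam
  have hconn : IsConn lam := (rkx_isRk x).isConn (rkx_empty x)
  set lam' : Finset α → ℕ := fun Y => 2 * lam Y + rkx K x Y % 2 with hlam'
  obtain ⟨t, h1, h2, h3, h4⟩ := exists_linked hconn t₀ ht₀ hw₀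
  rw [hf₀] at h1
  have hall : ∀ a, a ∈ t.toList := fun a => by rw [mem_toList, h1]; simp
  have hnd := toList_nodup h2
  refine ⟨t.toList, hnd, hall, ?_⟩
  set L : List V := t.toList.map x with hL
  set U : ℕ → ℕ → Submodule K (Fn K) := fun o l =>
    Usp φ (L.take o) ((L.drop o).take l) (L.drop (o + l)) with hU
  have hUdec : ∀ P F Q : List α, t.toList = P ++ F ++ Q → ∀ o l, P.length = o → F.length = l →
      U o l = Usp φ (P.map x) (F.map x) (Q.map x) := by
    intro P F Q h o l ho hl
    subst ho hl
    have e1 : L = P.map x ++ (F.map x ++ Q.map x) := by rw [hL, h]; simp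
    have e2 : L.take P.length = P.map x := by
      rw [e1, List.take_left' (by simp)]
    have e3 : L.drop P.length = F.map x ++ Q.map x := by
      rw [e1, List.drop_left' (by simp)]
    have e4 : L.drop (P.length + F.length) = Q.map x := by
      rw [← List.drop_drop, e3, List.drop_left' (by simp)]
    have e5 : (L.drop P.length).take F.length = F.map x := by
      rw [e3, List.take_left' (by simp)]
    simp only [hU]
    rw [e2, e4, e5]
  -- the spanning family at the root
  set u₀ : Fn K := fun b => φ (prodL K (sel L b)) with hu₀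
  set v : Fin (2 ^ w) → Fn K := fun a => if a = a₀ then u₀ else 0 with hv
  have hroot : Submodule.span K (Set.range v) = U 0 (shp lam' t).leaves := by
    rw [hUdec [] t.toList [] (by simp) 0 _ rfl (shp_leaves _ _).symm]
    apply le_antisymm
    · rw [Submodule.span_le]
      rintro _ ⟨a, rfl⟩
      simp only [hv]
      split_ifs
      · refine Submodule.subset_span ⟨(fun _ => false, fun _ => false), ?_⟩
        funext b
        simp only [List.map_nil, sel, prodL_nil, hu₀]
        rw [one_mul, mul_one]
      · exact Submodule.zero_mem _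
    · rw [Usp, Submodule.span_le]
      rintro _ ⟨c, rfl⟩
      refine Submodule.subset_span ⟨a₀, ?_⟩
      simp only [hv, if_true]
      funext b
      simp only [List.map_nil, sel, prodL_nil, hu₀]
      rw [one_mul, mul_one]
  obtain ⟨T, p1, p2, p3, -⟩ := build (R := 2 ^ w) U (fun o l => Usp_fd _ _ _ _) (by
      intro o l u hu b b' hb
      refine Usp_dep _ _ _ _ hu fun n hn => hb n ?_
      rw [List.length_take] at hn
      omega) (by
      intro o l₁ l₂ u hu b
      have e1 : (L.drop o).take (l₁ + l₂) = (L.drop o).take l₁ ++ (L.drop (o + l₁)).take l₂ := by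
        rw [List.take_add, List.drop_drop]
      have e2 : (L.drop (o + l₁)).take l₂ ++ L.drop (o + (l₁ + l₂)) = L.drop (o + l₁) := by
        have e4 : L.drop (o + (l₁ + l₂)) = (L.drop (o + l₁)).drop l₂ := by
          rw [List.drop_drop, add_assoc]
        rw [e4, List.take_append_drop]
      have e3 : L.take o ++ (L.drop o).take l₁ = L.take (o + l₁) := by
        rw [List.take_add]
      simp only [hU] at hu ⊢
      rw [e1] at hu
      have h5 := Usp_split φ _ _ _ _ l₁ (by rw [List.length_take]; omega) (by
        by_cases h6 : o + l₁ ≤ L.length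
        · left; rw [List.length_take, List.length_drop]; omega
        · right
          rw [List.drop_of_length_le (by omega), List.take_nil]) hu b
      rw [e2, e3] at h5
      rw [add_assoc]
      exact h5)
    (shp lam' t) 0 (by
      intro f o' hs
      obtain ⟨s, q1, q2, P, Q, q3, q4⟩ := subAt_shp lam' t hs
      rw [zero_add, hUdec P s.toList Q q3 o' f.leaves q4 (by rw [q2, shp_leaves]),
        finrank_Usp_conn hφ x hx P s.toList Q (q3 ▸ hnd) (q3 ▸ hall), toList_toFinset]
      exact Nat.pow_le_pow_right (by norm_num) (h3 _ (q1.nodes_subset s.fs_mem_nodes)))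
    (by
      intro g o₁ hs f o₂ hd hht
      obtain ⟨e, q1, q2, P₀, Q₀, q3, q4⟩ := subAt_shp lam' t hs
      subst q2
      obtain ⟨s, r1, r2, ⟨P, Q, r3, r4⟩, r5⟩ := descAt_shp lam' _ e (q1.part h2) hd
      subst r2
      have hdec : t.toList = P₀ ++ (P ++ s.toList ++ Q) ++ Q₀ := by rw [q3, r3]
      rw [shp_ht, shp_ht] at hht
      have hht1 : lam s.fs = lam e.fs ∧ rkx K x s.fs % 2 = rkx K x e.fs % 2 := by
        simp only [hlam'] at hht
        omega
      obtain ⟨π, s1, s2, hev, s3⟩ := link_tsl hφ x hx P₀ P s.toList Q Q₀ (hdec ▸ hnd) (by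
        rw [← hdec, toList_toFinset, h1]) (by
        intro X hX1 hX2
        rw [toList_toFinset] at hX1
        rw [← r3, toList_toFinset] at hX2
        obtain ⟨g, g1, g2, g3⟩ := h4 e q1 s r1 X hX1 hX2
        have g4 := r5 g g2 g1
        rw [shp_ht] at g4
        rw [toList_toFinset]
        rw [← hlam]
        simp only [hlam'] at g4
        omega) (by
        rw [← r3, toList_toFinset, toList_toFinset]
        exact hht1.1.symm) (by
        rw [← r3, toList_toFinset, toList_toFinset, Nat.even_add]
        rw [Nat.even_iff, Nat.even_iff, hht1.2])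
      refine ⟨π, by rw [s1, shp_leaves, r3], by rw [s2, shp_leaves], hev, ?_⟩
      rw [zero_add, hUdec P₀ e.toList Q₀ q3 o₁ _ q4 (shp_leaves _ _).symm,
        hUdec (P₀ ++ P) s.toList (Q ++ Q₀) (by rw [hdec]; simp) (o₁ + o₂) _ (by
          rw [List.length_append, q4, r4]) (shp_leaves _ _).symm, r3]
      exact s3) v (by rw [hroot]) (fun _ _ _ => True) (by
      intro f o' he
      obtain ⟨s, q1, q2, P, Q, q3, q4⟩ := subAt_shp lam' t he.subAt
      have : FiniteDimensional K (U (0 + o') f.leaves) := Usp_fd _ _ _ _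
      obtain ⟨w', hw'⟩ := exists_span (R := 2 ^ w) (U (0 + o') f.leaves) (by
        rw [zero_add, hUdec P s.toList Q q3 o' f.leaves q4 (by rw [q2, shp_leaves]),
          finrank_Usp_conn hφ x hx P s.toList Q (q3 ▸ hnd) (q3 ▸ hall), toList_toFinset]
        exact Nat.pow_le_pow_right (by norm_num) (h3 _ (q1.nodes_subset s.fs_mem_nodes)))
      exact ⟨w', hw', trivial⟩)
  refine ⟨T, ?_, ?_, p3, fun b => ?_⟩
  · rw [← shp_leaves lam', ← p1]
    exact (leaves_map _ _).symm
  · have := shp_bdd lam' (2 * w + 1) t (by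
      intro Y hY
      have h5 := h3 Y hY
      simp only [hlam']
      omega)
    rw [← p1] at this
    exact (bdd_map _ _ _).1 this
  · rw [p2]
    simp [hv, hu₀]

end Pool.Agent.H229.Sym
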