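import Pool.Agent.H229.Core
import Pool.Agent.H229.Sym.Norm
import Pool.Agent.H229.Sym.Moves

/-!
The comparison of points of bounded branch-width, up to permutations of the labels.
-/

namespace Pool.Agent.H229.Sym

open MvPolynomial Module BT Pool.Agent.H229

universe u

variable {k : Type u} [Field k]

lemma cnL_length {α : Type*} (ℓ : List α) (π : List (Option Bool)) (h : π.length = ℓ.length) :
    (cnL ℓ π).length = nct π := by
  induction ℓ generalizing π with
  | nil =>
    have : π = [] := List.length_eq_zero_iff.1 (by simpa using h)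
    subst this; rfl
  | cons a ℓ ih =>
    cases π with
    | nil => simp at h
    | cons x π =>
      have h1 := ih π (by simpa using h)
      rcases x with _ | c
      · simp only [cnL, nct, h1]
      · cases c
        · simp only [cnL, nct, Bool.false_eq_true, if_false, h1]
        · simp only [cnL, nct, if_true, List.length_cons, h1]

/-- moving the contracted labels to the front -/
lemma sort_front {α : Type*} {K : Type*} [Field K] {V : Type*} [AddCommGroup V] [Module K V]
    (x : α → V) (ℓ : List α) (π : List (Option Bool)) (hπ : π.length = ℓ.length)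
    (b : ℕ → Bool) : prodL K ((sel ℓ (fill π b)).map x) =
      sg π b • prodL K ((cnL ℓ π ++ sel (frL ℓ π) b).map x) := by
  induction ℓ generalizing π b with
  | nil =>
    have : π = [] := List.length_eq_zero_iff.1 (by simpa using hπ)
    subst this
    simp [sel, frL, cnL, sg]
  | cons a ℓ ih =>
    cases π with
    | nil => simp at hπ
    | cons y π =>
      have hπ' : π.length = ℓ.length := by simpa using hπ
      rcases y with _ | c
      · have h1 := ih π hπ' (fun m => b (m + 1))
        have hl := cnL_length ℓ π hπ'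
        simp only [frL, cnL, sel_cons, fill, sg]
        by_cases hb : b 0 = true
        · rw [if_pos hb, if_pos hb, if_pos hb, List.map_cons, prodL_cons, h1,
            List.map_append, prodL_append, List.map_append, prodL_append, List.map_cons,
            prodL_cons, ← mul_assoc (prodL K _) (ExteriorAlgebra.ι K _), prodL_mul_ι,
            List.length_map, hl, mul_smul_comm, mul_smul, smul_comm]
          congr 1
          rcases Nat.even_or_odd (nct π) with h | h
          · rw [h.neg_one_pow, h.neg_one_pow, one_mul, one_smul, mul_assoc]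
          · rw [h.neg_one_pow, h.neg_one_pow]
            simp [mul_assoc]
        · rw [if_neg hb, if_neg hb, if_neg hb, one_mul]
          exact h1
      · have h1 := ih π hπ' b
        cases c with
        | false =>
          simp only [frL, cnL, sel_cons, fill, sg, Bool.false_eq_true, if_false]
          exact h1
        | true =>
          simp only [frL, cnL, sel_cons, fill, sg, if_true, List.map_cons, prodL_cons,
            List.cons_append]
          rw [h1, mul_smul_comm]

/-- The tree of tensors of a point of bounded branch-width. -/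
theorem point_tree {w : ℕ} (a₀ : Fin (2 ^ w)) {P : PrimeSpectrum (MvPolynomial Idx k)}
    (hP : P ∈ GrW k w) {N : ℕ} (hN : 1 ≤ N) {s₀ : Idx} (hs₀ : AtLevel N N s₀)
    (hne : X s₀ ∉ P.asIdeal) :
    ∃ (x : ℤ → Fin N → P.asIdeal.ResidueField) (ℓ : List ℤ), ℓ.Nodup ∧
      (∀ a, a ∈ ℓ ↔ a ∈ lab N N) ∧
      (∀ s, AtLevel N N s → coord P s = vol _ N (prodL _ ((toL N s).map x))) ∧
      ∃ T : Tr (Fin (cR (2 ^ w)) → P.asIdeal.ResidueField), T.leaves = ℓ.length ∧
        T.Bdd (2 * w + 2) ∧ Normal T ∧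
        ∀ b, evalT T b a₀ = vol _ N (prodL _ ((sel ℓ b).map x)) := by
  classical
  obtain ⟨x, hx⟩ := exists_vectors hP.1 hN
  obtain ⟨t, t1, t2, t3⟩ := hP.2 N N hN hN
  have htop : Submodule.span P.asIdeal.ResidueField (x '' (lab N N : Set ℤ)) = ⊤ := by
    have h1 := coord_ne_zero.2 hne
    rw [hx s₀ hs₀, vol_isVol, spanL_map] at h1
    rw [eq_top_iff, ← h1.2]
    refine Submodule.span_mono (Set.image_mono ?_)
    intro a ha
    have : a ∈ toL N s₀ := by simpa using ha
    exact_mod_cast hs₀.mem this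
  obtain ⟨t', l1, l2, l3⟩ := lift_tree (lab N N) t (fun a ha => t2 ▸ ha)
  set y : {z // z ∈ lab N N} → Fin N → P.asIdeal.ResidueField := fun z => x z.1 with hy
  have himg : ∀ Y : Finset {z // z ∈ lab N N}, y '' (Y : Set {z // z ∈ lab N N}) =
      x '' ((Y.map (Function.Embedding.subtype _) : Finset ℤ) : Set ℤ) := by
    intro Y
    rw [Finset.coe_map, ← Set.image_comp]
    rfl
  have hrk : ∀ Y : Finset {z // z ∈ lab N N}, rkx P.asIdeal.ResidueField y Y =
      finrank P.asIdeal.ResidueField (Submodule.span P.asIdeal.ResidueField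
        (x '' ((Y.map (Function.Embedding.subtype _) : Finset ℤ) : Set ℤ))) := by
    intro Y
    rw [rkx, himg]
  have huniv : (Finset.univ : Finset {z // z ∈ lab N N}).map (Function.Embedding.subtype _) = lab N N := by
    ext a; simp
  have htop' : Submodule.span P.asIdeal.ResidueField (Set.range y) = ⊤ := by
    rw [← Set.image_univ, ← Finset.coe_univ, himg, huniv, htop]
  have hfs : t'.fs = Finset.univ := by
    apply Finset.map_injective (Function.Embedding.subtype _)
    rw [l1, t2, huniv]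
  obtain ⟨ℓ, m1, m2, T, m3, m4, m5, m6⟩ := Sym.exists_normal (vol_isVol (p := N)) y htop' w a₀ t'
    (l2 t1) hfs (by
      intro Y hY
      set Z : Finset ℤ := Y.map (Function.Embedding.subtype _) with hZ
      have hZl : Z ⊆ lab N N := by
        intro a ha
        rw [hZ, Finset.mem_map] at ha
        obtain ⟨z, -, rfl⟩ := ha
        exact z.2
      have hZc : Yᶜ.map (Function.Embedding.subtype _) = lab N N \ Z := by
        ext a
        simp only [Finset.mem_map, Finset.mem_compl, Finset.mem_sdiff, hZ]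
        constructor
        · rintro ⟨z, hz, rfl⟩
          refine ⟨z.2, ?_⟩
          rintro ⟨z', hz', he⟩
          exact hz (Subtype.ext he ▸ hz')
        · rintro ⟨ha, hz⟩
          exact ⟨⟨a, ha⟩, fun h => hz ⟨_, h, rfl⟩, rfl⟩
      obtain ⟨s₁, a1, a2, a3⟩ := exists_adapted x htop Z hZl
      obtain ⟨s₂, b1, b2, b3⟩ := exists_adapted x htop (lab N N \ Z) Finset.sdiff_subset
      have h1 := t3 Z (l3 Y hY) s₁ s₂ a1 b1
        (coord_ne_zero.1 (by rw [hx _ a1]; exact a2)) (coord_ne_zero.1 (by rw [hx _ b1]; exact b2))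
      have h2 := cnt_add b1 (Y := Z)
      have h3 : rkx P.asIdeal.ResidueField y Finset.univ = N := by
        rw [hrk, huniv, htop, finrank_top]; simp
      have h4 : conn (rkx P.asIdeal.ResidueField y) Y = rkx P.asIdeal.ResidueField y Y +
        rkx P.asIdeal.ResidueField y Yᶜ - rkx P.asIdeal.ResidueField y Finset.univ := rfl
      rw [h4, h3, hrk Y, hrk Yᶜ, hZc, ← hZ]
      omega)
  refine ⟨x, ℓ.map Subtype.val, m1.map Subtype.val_injective, ?_, hx, T, by simp [m3], m4, m5, ?_⟩
  · intro a
    simp only [List.mem_map]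
    constructor
    · rintro ⟨z, -, rfl⟩; exact z.2
    · intro ha; exact ⟨⟨a, ha⟩, m2 _, rfl⟩
  · intro b
    rw [m6, sel_map', sel_map', List.map_map]
    rfl

/-- the comparison when all points have a nonvanishing coordinate -/
theorem core_aux {w : ℕ} (P : ℕ → PrimeSpectrum (MvPolynomial Idx k))
    (hP : ∀ i, P i ∈ GrW k w) (f : ℕ → MvPolynomial Idx k) (hf : ∀ i, f i ∉ (P i).asIdeal)
    (h0 : ∀ i, ∃ s, X s ∉ (P i).asIdeal) :
    ∃ i j, i < j ∧ ∃ Γ : MvPolynomial Idx k →ₐ[k] MvPolynomial Idx k, Gen k Γ ∧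
      Γ (f i) ∉ (P j).asIdeal := by
  classical
  choose s₀ hs₀ using h0
  choose M hM1 hM2 using fun i => exists_common_level (insert (s₀ i) (f i).vars)
  set N : ℕ → ℕ := fun i => (∑ l ∈ Finset.range (i + 1), M l) + 2 * i with hN
  have hMN : ∀ i, M i ≤ N i := fun i => by
    have h : M i ≤ ∑ l ∈ Finset.range (i + 1), M l :=
      Finset.single_le_sum (f := M) (fun _ _ => Nat.zero_le _) (Finset.mem_range.2 (by omega))
    simp only [hN]
    omega
  have hNmono : ∀ i j, i < j → N i + 2 ≤ N j := fun i j hij => by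
    have h : ∑ l ∈ Finset.range (i + 1), M l ≤ ∑ l ∈ Finset.range (j + 1), M l :=
      Finset.sum_le_sum_of_subset (Finset.range_subset_range.2 (by omega))
    simp only [hN]
    omega
  have hN1 : ∀ i, 1 ≤ N i := fun i => (hM1 i).trans (hMN i)
  have hs₀l : ∀ i, AtLevel (N i) (N i) (s₀ i) := fun i =>
    (hM2 i _ (Finset.mem_insert_self _ _)).mono (hMN i)
  have hfl : ∀ i, ∀ s ∈ (f i).vars, AtLevel (N i) (N i) s := fun i s hs =>
    (hM2 i _ (Finset.mem_insert_of_mem hs)).mono (hMN i)
  set a₀ : Fin (2 ^ w) := ⟨0, by positivity⟩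
  choose x ℓ hnd hmem hx T hT1 hT2 hT3 hT4 using fun i =>
    point_tree a₀ (hP i) (hN1 i) (hs₀l i) (hs₀ i)
  choose b₀ ε₀ hb₀ hε₀ using fun i =>
    transfer_one (ℓ i) (hnd i) (fun a ha => (hmem i a).2 ha) (hs₀l i)
  choose g hg using fun i =>
    transfer (ℓ i) (hnd i) (fun a ha => (hmem i a).2 ha) (f i) (hfl i)
  obtain ⟨i, j, hij, π, ε, hπ1, hπ2, hev, hne⟩ := tree_noeth (2 * w + 2)
    (fun i => (P i).asIdeal.ResidueField) T hT3 hT2 a₀ (fun i => g i * X (b₀ i)) (by
      intro i
      simp only [map_mul, aeval_X]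
      have h1 := hg i _ _ (x i) (vol _ (N i)) (fun _ => 1) (coord (P i)) (by
        intro s hs
        rw [hx i s hs]
        simp) (fun b => evalT (T i) b a₀) (by
        intro b _
        rw [hT4]
        simp)
      rw [h1]
      refine mul_ne_zero (fun h => hf i ((mem_iff_aeval _ _).2 h)) ?_
      have h2 := hε₀ i _ _ (x i) (vol _ (N i)) (fun _ => 1)
      have h3 := coord_ne_zero.2 (hs₀ i)
      rw [hx i _ (hs₀l i)] at h3
      simp only [List.map_const', List.prod_replicate, one_pow, one_smul] at h2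
      rw [h2] at h3
      rw [hT4]
      intro h4
      rw [h4, smul_zero] at h3
      exact h3 rfl)
  refine ⟨i, j, hij, ?_⟩
  simp only [map_mul, aeval_X] at hne
  obtain ⟨hne1, hne2⟩ := mul_ne_zero_iff.1 hne
  -- the labels
  have hlenj : π.length = (ℓ j).length := by rw [hπ1, hT1]
  set Fr := frL (ℓ j) π with hFr
  set Cn := cnL (ℓ j) π with hCn
  have hFrl : Fr.length = (ℓ i).length := by rw [hFr, frL_length _ _ hlenj, hπ2, hT1]
  have hnm : N i ≤ N j := by have := hNmono i j hij; omega
  have hCnc : Cn.length = nct π := cnL_length _ _ hlenj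
  have hF0 : ∀ b, (ε * sg π b) • evalT (T j) (fill π b) a₀ = ε •
      vol _ (N j) (prodL _ ((sel Fr b ++ Cn).map (x j))) := by
    intro b
    rw [hT4, sort_front (x j) (ℓ j) π hlenj b, ← hFr, ← hCn, Units.smul_def (sg π b), map_zsmul,
      ← Units.smul_def, smul_smul, mul_assoc, units_mul_self, mul_one, List.map_append,
      List.map_append, prodL_append, prodL_append, prodL_mul_comm, List.length_map,
      List.length_map, hCnc]
    have h : Even (nct π * (sel Fr b).length) := hev.mul_right _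
    rw [h.neg_one_pow, one_mul]
  have hCnl : N i + Cn.length = N j := by
    rw [hF0] at hne2
    have h1 : vol _ (N j) (prodL _ ((sel Fr (b₀ i) ++ Cn).map (x j))) ≠ 0 := by
      intro h; rw [h, smul_zero] at hne2; exact hne2 rfl
    have h2 : ((sel Fr (b₀ i) ++ Cn).map (x j)).length = N j := by
      by_contra h
      exact h1 (vol_ne _ h)
    rw [List.length_map, List.length_append, sel_length_congr Fr (ℓ i) hFrl, hb₀] at h2
    exact h2
  -- absorbing the sign
  obtain ⟨Cn', hCp, hCs⟩ : ∃ Cn' : List ℤ, Cn'.Perm Cn ∧ ∀ L : List ℤ,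
      ε • vol (P j).asIdeal.ResidueField (N j) (prodL _ ((L ++ Cn).map (x j))) =
        vol _ (N j) (prodL _ ((L ++ Cn').map (x j))) := by
    rcases Int.units_eq_one_or ε with h | h
    · exact ⟨Cn, List.Perm.refl _, fun L => by rw [h, one_smul]⟩
    · have h2 : 2 ≤ Cn.length := by have := hNmono i j hij; omega
      obtain ⟨c₁, c₂, rest, h3⟩ : ∃ c₁ c₂ rest, Cn = c₁ :: c₂ :: rest := by
        match h4 : Cn, h2 with
        | c₁ :: c₂ :: rest, _ => exact ⟨c₁, c₂, rest, rfl⟩
      refine ⟨c₂ :: c₁ :: rest, by rw [h3]; exact List.Perm.swap _ _ _, fun L => ?_⟩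
      rw [h, h3]
      simp only [List.map_append, List.map_cons, prodL_append, prodL_cons]
      rw [← mul_assoc (ExteriorAlgebra.ι _ (x j c₁)), ι_anticomm (x j c₁) (x j c₂)]
      simp [mul_assoc]
  have hF : ∀ b, (ε * sg π b) • evalT (T j) (fill π b) a₀ =
      vol _ (N j) (prodL _ ((sel Fr b ++ Cn').map (x j))) := fun b => by rw [hF0, hCs]
  have hCnl' : N i + Cn'.length = N j := by rw [hCp.length_eq]; exact hCnl
  -- the injection
  have hgap : ∀ a ∈ gap (N i) (N j), a ∉ ℓ i := by
    intro a ha h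
    rw [mem_gap] at ha
    rw [hmem, mem_lab] at h
    omega
  obtain ⟨τ, Γ, hΓ, hrep, hmap⟩ := Rep.all (k := k) (N := N j) (ℓ i ++ gap (N i) (N j))
    (Fr ++ Cn')
    (by
      rw [List.nodup_append]
      refine ⟨hnd i, gap_nodup _ _, ?_⟩
      rintro a ha b hb rfl
      exact hgap a hb ha)
    ((List.Perm.append_left Fr hCp).nodup_iff.2 (fr_cn_nodup _ _ (hnd j)))
    (by rw [List.length_append, List.length_append, hFrl, gap_length]; omega)
    (by
      intro a ha
      rcases List.mem_append.1 ha with ha | ha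
      · exact lab_mono hnm ((hmem i a).1 ha)
      · rw [mem_gap] at ha
        rw [mem_lab]
        omega)
    (by
      intro b hb
      rcases List.mem_append.1 hb with hb | hb
      · exact (hmem j b).1 ((frL_sublist _ _).subset hb)
      · exact (hmem j b).1 ((cnL_sublist _ _).subset (hCp.mem_iff.1 hb)))
  rw [List.map_append] at hmap
  obtain ⟨hmap1, hmap2⟩ := List.append_inj hmap (by rw [List.length_map, hFrl])
  refine ⟨Γ, hΓ, ?_⟩
  -- the transferred polynomial
  set φ' : ExteriorAlgebra (P j).asIdeal.ResidueField (Fin (N j) → (P j).asIdeal.ResidueField)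
      →ₗ[(P j).asIdeal.ResidueField] (P j).asIdeal.ResidueField :=
    vol _ (N j) ∘ₗ LinearMap.mulRight _ (prodL _ (Cn'.map (x j))) with hφ'
  have hφ'' : ∀ z, φ' z = vol _ (N j) (z * prodL _ (Cn'.map (x j))) := fun z => rfl
  set ω : Idx → (P j).asIdeal.ResidueField := fun s => aeval (coord (P j)) (Γ (X s)) with hω
  have h1 := hg i _ _ (fun a => x j (τ a)) φ' (fun _ => 1) ω (by
    intro s hs
    have hsm := hs.mono hnm
    obtain ⟨s', hs', he⟩ := Rep.exists_mid hrep.maps hrep.inj hsm
    simp only [hω]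
    rw [hrep.act s s' hsm hs' he, aeval_X,
      hx j s' hs', he, hs.toL_mono hnm, List.map_append, hmap2, List.map_append, prodL_append,
      List.map_map, hφ'']
    simp
    rfl) (fun b => (ε * sg π b) • evalT (T j) (fill π b) a₀) (by
    intro b _
    rw [hF, List.map_append, prodL_append, hφ'', ← hmap1, sel_map', List.map_map]
    simp
    rfl)
  rw [h1] at hne1
  rw [mem_iff_aeval]
  intro h2
  apply hne1
  rw [← h2]
  have h3 : aeval ω = (aeval (coord (P j))).comp Γ := by
    apply algHom_ext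
    intro s
    rw [aeval_X, AlgHom.comp_apply]
  rw [h3, AlgHom.comp_apply]

/-- **The comparison of points of bounded branch-width.** -/
theorem core {w : ℕ} (P : ℕ → PrimeSpectrum (MvPolynomial Idx k))
    (hP : ∀ i, P i ∈ GrW k w) (f : ℕ → MvPolynomial Idx k) (hf : ∀ i, f i ∉ (P i).asIdeal) :
    ∃ i j, i < j ∧ ∃ Γ : MvPolynomial Idx k →ₐ[k] MvPolynomial Idx k, Gen k Γ ∧
      Γ (f i) ∉ (P j).asIdeal := by
  have horig : ∀ i, (∀ s, X s ∈ (P i).asIdeal) → ∀ h : MvPolynomial Idx k,
      h ∉ (P i).asIdeal ↔ constantCoeff h ≠ 0 := by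
    intro i hi h
    have e : coord (P i) = 0 := by
      funext s
      have := hi s
      rw [mem_iff_aeval, aeval_X] at this
      exact this
    rw [mem_iff_aeval, e, aeval_zero]
    simp
  by_cases h1 : ∃ i j, i < j ∧ (∀ s, X s ∈ (P i).asIdeal) ∧ ∀ s, X s ∈ (P j).asIdeal
  · obtain ⟨i, j, hij, hi, hj⟩ := h1
    refine ⟨i, j, hij, AlgHom.id k _, .id, ?_⟩
    rw [AlgHom.id_apply, horig j hj, ← horig i hi]
    exact hf i
  · obtain ⟨i₀, hi₀⟩ : ∃ i₀, ∀ i, ∃ s, X s ∉ (P (i₀ + i)).asIdeal := by
      by_cases h2 : ∃ i₁, ∀ s, X s ∈ (P i₁).asIdeal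
      · obtain ⟨i₁, h2⟩ := h2
        refine ⟨i₁ + 1, fun i => ?_⟩
        by_contra h3
        push Not at h3
        exact h1 ⟨i₁, i₁ + 1 + i, by omega, h2, h3⟩
      · push Not at h2
        exact ⟨0, fun i => h2 _⟩
    obtain ⟨i, j, hij, Γ, hΓ, h3⟩ := core_aux (w := w) (fun i => P (i₀ + i)) (fun i => hP _)
      (fun i => f (i₀ + i)) (fun i => hf _) hi₀
    exact ⟨i₀ + i, i₀ + j, by omega, Γ, hΓ, h3⟩

/-- the chain argument -/
theorem chain {w : ℕ} (C : ℕ → Set (PrimeSpectrum (MvPolynomial Idx k)))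
    (hC : ∀ i, ∃ D : Set (PrimeSpectrum (MvPolynomial Idx k)), IsClosed D ∧ C i = D ∩ GrW k w)
    (hanti : Antitone C)
    (hst : ∀ i, ∀ a b : ℤ, ∀ (ha : a ≠ 0) (hb : b ≠ 0), a ≠ b → ∀ P ∈ C i,
      PrimeSpectrum.comap (Sym.trans k a b ha hb).toRingHom P ∈ C i) :
    ∃ i, ∀ j, i ≤ j → C j = C i := by
  by_contra hcon
  push Not at hcon
  choose nx hnx1 hnx2 using hcon
  choose D hD1 hD2 using hC
  -- the strictly decreasing subsequence
  set ν : ℕ → ℕ := fun m => Nat.rec 0 (fun _ i => nx i) m with hν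
  have hν1 : ∀ m, ν (m + 1) = nx (ν m) := fun m => rfl
  have hνm : Monotone ν := monotone_nat_of_le_succ fun m => by rw [hν1]; exact hnx1 _
  have hex : ∀ m, ∃ P ∈ C (ν m), P ∉ C (ν (m + 1)) := by
    intro m
    by_contra h
    push Not at h
    exact hnx2 (ν m) (subset_antisymm (hanti (hnx1 _)) h)
  choose P hP1 hP2 using hex
  have hPW : ∀ m, P m ∈ GrW k w := by
    intro m
    have := hP1 m
    rw [hD2] at this
    exact this.2
  have hfex : ∀ m, ∃ f : MvPolynomial Idx k, f ∉ (P m).asIdeal ∧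
      ∀ Q ∈ D (ν (m + 1)), f ∈ Q.asIdeal := by
    intro m
    have h1 : P m ∉ D (ν (m + 1)) := by
      intro h
      apply hP2 m
      rw [hD2]
      exact ⟨h, hPW m⟩
    obtain ⟨S, hS⟩ := (PrimeSpectrum.isClosed_iff_zeroLocus _).1 (hD1 (ν (m + 1)))
    rw [hS, PrimeSpectrum.mem_zeroLocus, Set.not_subset] at h1
    obtain ⟨f, hf1, hf2⟩ := h1
    refine ⟨f, hf2, fun Q hQ => ?_⟩
    rw [hS, PrimeSpectrum.mem_zeroLocus] at hQ
    exact hQ hf1
  choose f hf1 hf2 using hfex
  obtain ⟨i, j, hij, Γ, hΓ, h⟩ := core P hPW f hf1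
  apply h
  have hle : i + 1 ≤ j := hij
  have h1 : P j ∈ C (ν (i + 1)) := hanti (hνm hle) (hP1 j)
  have h2 := hΓ.mem (hst (ν (i + 1))) _ h1
  rw [hD2] at h2
  exact hf2 i _ h2.1

end Pool.Agent.H229.Sym
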