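import Pool.Agent.H229.Limit
import Pool.Agent.H229.Sym.Core

/-!
Chains of closed subsets stable under permutations whose intersection consists of points of
finite branch-width.
-/

namespace Pool.Agent.H229.Sym

open MvPolynomial Module BT Pool.Agent.H229

universe u

variable {k : Type u} [Field k]

/-- **Bounded windows of large branch-width.** -/
theorem outside {w G : ℕ} (hG : G = 6 * gg w + 2) {P : PrimeSpectrum (MvPolynomial Idx k)}
    (hP : P ∈ Gr k) (hP' : P ∉ GrW k w) :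
    ∃ Γ : MvPolynomial Idx k →ₐ[k] MvPolynomial Idx k, Gen k Γ ∧
      ∀ t : BT ℤ, t.Part → t.fs = lab G G → ∃ A ∈ t.nodes, ∃ s s' : Idx,
        AtLevel G G s ∧ AtLevel G G s' ∧ Γ (X s) ∉ P.asIdeal ∧ Γ (X s') ∉ P.asIdeal ∧
        cnt G A s' + w < cnt G A s := by
  classical
  obtain ⟨N, x, C, E, hGN, hx, hC, hE, hd, hCc, hEc, hrC, hrE, hnV⟩ := exists_window hG hP hP'
  set r := rkx P.asIdeal.ResidueField x with hr
  have hrk : IsRk r := rkx_isRk x
  obtain ⟨τ, Γ, hΓ, hrep, hmap⟩ := Rep.all (k := k) (N := N) ((lab G G).toList ++ gap G N)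
    (E.toList ++ C.toList)
    (by
      rw [List.nodup_append']
      refine ⟨Finset.nodup_toList _, gap_nodup _ _, ?_⟩
      intro a ha ha'
      rw [Finset.mem_toList, mem_lab] at ha
      rw [mem_gap] at ha'
      omega)
    (by
      rw [List.nodup_append']
      refine ⟨Finset.nodup_toList _, Finset.nodup_toList _, ?_⟩
      intro a ha ha'
      rw [Finset.mem_toList] at ha ha'
      exact Finset.disjoint_left.1 hd ha' ha)
    (by
      simp only [List.length_append, Finset.length_toList, gap_length, lab_card, hEc, hCc]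
      omega)
    (by
      intro a ha
      rw [List.mem_append, Finset.mem_toList, mem_lab, mem_gap] at ha
      rw [mem_lab]
      omega)
    (by
      intro a ha
      rw [List.mem_append, Finset.mem_toList, Finset.mem_toList] at ha
      rcases ha with ha | ha
      · exact hE ha
      · exact hC ha)
  rw [List.map_append] at hmap
  obtain ⟨hmap1, hmap2⟩ := List.append_inj hmap (by
    rw [List.length_map, Finset.length_toList, Finset.length_toList, lab_card, hEc]; omega)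
  have hτ : Function.Injective τ := hrep.inj
  have himE : (lab G G).image τ = E := by
    ext a
    rw [← Finset.mem_toList (s := E), ← hmap1, Finset.mem_image, List.mem_map]
    simp only [Finset.mem_toList]
  have himC : ((gap G N).map τ).toFinset = C := by
    rw [hmap2, Finset.toList_toFinset]
  refine ⟨Γ, hΓ, ?_⟩
  by_contra hcon
  push Not at hcon
  obtain ⟨t, t1, t2, t3⟩ := hcon
  apply hnV
  obtain ⟨t', u1, u2, u3⟩ := map_tree τ hτ t
  refine Or.inr ⟨t', u2 t1, by rw [u1, t2, himE], ?_⟩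
  intro Y hY
  obtain ⟨A, hA, rfl⟩ := u3 Y hY
  have hAl : A ⊆ lab G G := t2 ▸ subset_of_mem_nodes hA
  have key : ∀ Z ⊆ E, ∃ s, AtLevel G G s ∧ Γ (X s) ∉ P.asIdeal ∧
      (∀ B : Finset ℤ, B ⊆ lab G G → B.image τ = Z → r (Z ∪ C) ≤ cnt G B s + (N - G)) := by
    intro Z hZ
    obtain ⟨s, hs, h1, h2⟩ := window_basis hGN x hd hCc hrC hrE hτ himE himC hZ
    refine ⟨s, hs, ?_, h2⟩
    have hsN : AtLevel N N s := hs.mono hGN
    obtain ⟨s', hs', he⟩ := Rep.exists_mid hrep.maps hτ hsN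
    rw [← he, ← hx s' hs'] at h1
    rw [hrep.act s s' hsN hs' he]
    exact coord_ne_zero.1 h1
  have himA : A.image τ ⊆ E := by rw [← himE]; exact Finset.image_subset_image hAl
  obtain ⟨s, a1, a2, a3⟩ := key _ himA
  obtain ⟨s', b1, b2, b3⟩ := key (E \ A.image τ) Finset.sdiff_subset
  have h1 := t3 A hA s s' a1 b1 a2 b2
  have h2 := a3 A hAl rfl
  have h3 := b3 (lab G G \ A) Finset.sdiff_subset (by
    rw [Finset.image_sdiff _ _ hτ, himE])
  have h4 := cn_add (ct_isRk hrk C) himA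
  simp only [ct_apply, Finset.empty_union] at h4
  have h5 := cnt_add b1 (Y := A)
  have h6 : r (E ∪ C) = N := hrE
  have h7 : r C = C.card := hrC
  omega

/-- points outside the locus have a bad pattern -/
lemma outside_UU {w : ℕ} {P : PrimeSpectrum (MvPolynomial Idx k)} (hP : P ∈ Gr k)
    (hP' : P ∉ GrW k w) : ∃ Γ : MvPolynomial Idx k →ₐ[k] MvPolynomial Idx k, Gen k Γ ∧
      PrimeSpectrum.comap Γ.toRingHom P ∈ UU k w := by
  classical
  obtain ⟨Γ, h1, h2⟩ := outside (G := lv w) rfl hP hP'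
  refine ⟨Γ, h1, ?_⟩
  rw [mem_UU]
  set B : Finset Idx := (atLevel_finite (lv w) (lv w)).toFinset.filter
    fun s => Γ (X s) ∉ P.asIdeal with hB
  have hmem : ∀ s, s ∈ B ↔ AtLevel (lv w) (lv w) s ∧ Γ (X s) ∉ P.asIdeal := by
    intro s
    rw [hB, Finset.mem_filter, Set.Finite.mem_toFinset]
    rfl
  refine ⟨B, ⟨fun s hs => ((hmem s).1 hs).1, fun t t1 t2 => ?_⟩, ?_⟩
  · obtain ⟨A, hA, s, s', a1, a2, a3, a4, a5⟩ := h2 t t1 t2
    exact ⟨A, hA, s, (hmem s).2 ⟨a1, a3⟩, s', (hmem s').2 ⟨a2, a4⟩, a5⟩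
  · have h3 := (fB_notMem (k := k) (B := B) (P := P) (Γ := Γ)).2 fun s hs => ((hmem s).1 hs).2
    exact h3

/-- points of the locus have no bad pattern -/
lemma inside_UU {w : ℕ} {P : PrimeSpectrum (MvPolynomial Idx k)} (hP : P ∈ GrW k w)
    {Γ : MvPolynomial Idx k →ₐ[k] MvPolynomial Idx k} (hΓ : Gen k Γ) :
    PrimeSpectrum.comap Γ.toRingHom P ∉ UU k w := by
  classical
  intro h
  rw [mem_UU] at h
  obtain ⟨B, hB, hne⟩ := h
  have hne' : ∀ s ∈ B, Γ (X s) ∉ P.asIdeal := fB_notMem.1 hne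
  set G := lv w with hG
  obtain ⟨N₀, τ, hrep⟩ := hΓ.rep
  set N := N₀ + G + 1 with hN
  have hr := hrep N (by omega)
  obtain ⟨t, t1, t2, t3⟩ := hP.2 N N (by omega) (by omega)
  -- the window
  set E := (lab G G).image τ with hE
  have hEN : E ⊆ lab N N := by
    intro a ha
    rw [hE, Finset.mem_image] at ha
    obtain ⟨b, hb, rfl⟩ := ha
    exact hr.maps b (lab_mono (by omega) hb)
  have hEne : E.Nonempty := by
    refine ⟨τ 1, Finset.mem_image_of_mem _ ?_⟩
    rw [mem_lab, hG, lv]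
    omega
  cases hres : BT.restr t E with
  | none =>
    have := restr_none.1 hres
    rw [t2, Finset.inter_eq_right.2 hEN] at this
    rw [this] at hEne
    simp at hEne
  | some t' =>
    obtain ⟨r1, r2, r3⟩ := restr_some hres
    rw [t2, Finset.inter_eq_right.2 hEN] at r1
    -- pull back by `τ`
    set σ := Function.invFun τ with hσ
    have hστ : ∀ a, σ (τ a) = a := Function.leftInverse_invFun hr.inj
    have hpull : ∀ u : BT ℤ, u.fs ⊆ E → ∃ u' : BT ℤ, u'.fs = u.fs.image σ ∧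
        (u.Part → u'.Part) ∧ ∀ Y ∈ u'.nodes, ∃ W ∈ u.nodes, Y = W.image σ := by
      intro u
      induction u with
      | leaf a =>
        intro _
        refine ⟨.leaf (σ a), by simp, fun _ => trivial, ?_⟩
        intro Y hY
        simp only [nodes, Finset.mem_singleton] at hY
        subst hY
        exact ⟨{a}, by simp [nodes], by simp⟩
      | node l r ihl ihr =>
        intro hu
        rw [fs_node] at hu
        obtain ⟨l', l1, l2, l3⟩ := ihl (Finset.subset_union_left.trans hu)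
        obtain ⟨r', r1, r2, r3⟩ := ihr (Finset.subset_union_right.trans hu)
        have e : l'.fs ∪ r'.fs = (l.fs ∪ r.fs).image σ := by
          rw [Finset.image_union, l1, r1]
        refine ⟨.node l' r', e, fun hp => ⟨?_, l2 hp.2.1, r2 hp.2.2⟩, ?_⟩
        · rw [l1, r1, Finset.disjoint_left]
          intro a ha ha'
          rw [Finset.mem_image] at ha ha'
          obtain ⟨b, hb, rfl⟩ := ha
          obtain ⟨c, hc, hbc⟩ := ha'
          obtain ⟨b', -, rfl⟩ := Finset.mem_image.1 (hu (Finset.mem_union_left _ hb))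
          obtain ⟨c', -, rfl⟩ := Finset.mem_image.1 (hu (Finset.mem_union_right _ hc))
          rw [hστ, hστ] at hbc
          subst hbc
          exact Finset.disjoint_left.1 hp.1 hb hc
        · intro Y hY
          simp only [nodes, Finset.mem_insert, Finset.mem_union] at hY
          rcases hY with rfl | hY | hY
          · exact ⟨_, by simp [nodes], e⟩
          · obtain ⟨A, h1, h2⟩ := l3 Y hY
            exact ⟨A, by simp only [nodes, Finset.mem_insert, Finset.mem_union]; tauto, h2⟩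
          · obtain ⟨A, h1, h2⟩ := r3 Y hY
            exact ⟨A, by simp only [nodes, Finset.mem_insert, Finset.mem_union]; tauto, h2⟩
    obtain ⟨u, u1, u2, u3⟩ := hpull t' r1.le
    have u4 : u.fs = lab G G := by
      rw [u1, r1, hE, Finset.image_image]
      have : σ ∘ τ = id := funext hστ
      rw [this, Finset.image_id]
    obtain ⟨A, hA, s, hs, s', hs', hlt⟩ := hB.2 u (u2 (r2 t1)) u4
    obtain ⟨V, hV, rfl⟩ := u3 A hA
    obtain ⟨W, hW, rfl⟩ := r3 V hV
    have hWA : ∀ a ∈ lab G G, τ a ∈ W ↔ a ∈ (W ∩ E).image σ := by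
      intro a ha
      constructor
      · intro h
        refine Finset.mem_image.2 ⟨τ a, Finset.mem_inter.2 ⟨h, ?_⟩, hστ a⟩
        exact Finset.mem_image_of_mem _ ha
      · intro h
        obtain ⟨b, hb, hb'⟩ := Finset.mem_image.1 h
        rw [Finset.mem_inter] at hb
        obtain ⟨c, -, rfl⟩ := Finset.mem_image.1 hb.2
        rw [hστ] at hb'
        subst hb'
        exact hb.1
    have hGN : G ≤ N := by omega
    obtain ⟨z, hz, hz'⟩ := Rep.exists_mid hr.maps hr.inj ((hB.1 s hs).mono hGN)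
    obtain ⟨z', hz1, hz1'⟩ := Rep.exists_mid hr.maps hr.inj ((hB.1 s' hs').mono hGN)
    have hXz : ∀ (s z : Idx), s ∈ B → AtLevel N N z → toL N z = (toL N s).map τ →
        X z ∉ P.asIdeal := by
      intro s z hs hz he hmem
      apply hne' s hs
      rw [hr.act s z ((hB.1 s hs).mono hGN) hz he]
      exact hmem
    have h5 := t3 W hW z z' hz hz1 (hXz s z hs hz hz') (hXz s' z' hs' hz1 hz1')
    rw [cnt_shift hGN hr.inj (hB.1 s hs) hz' W _ hWA,
      cnt_shift hGN hr.inj (hB.1 s' hs') hz1' W _ hWA] at h5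
    omega

/-- stability under permutations -/
def Stb (C : Set (PrimeSpectrum (MvPolynomial Idx k))) : Prop :=
  ∀ a b : ℤ, ∀ (ha : a ≠ 0) (hb : b ≠ 0), a ≠ b → ∀ P ∈ C,
    PrimeSpectrum.comap (Sym.trans k a b ha hb).toRingHom P ∈ C

lemma subset_GrW_iff {w : ℕ} {Z : Set (PrimeSpectrum (MvPolynomial Idx k))} (hG : Z ⊆ Gr k)
    (hst : Stb Z) : Z ⊆ GrW k w ↔ ¬ (UU k w ∩ Z).Nonempty := by
  constructor
  · rintro h ⟨P, h1, h2⟩
    exact inside_UU (h h2) .id h1
  · intro h P hP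
    by_contra hP'
    obtain ⟨Γ, h1, h2⟩ := outside_UU (hG hP) hP'
    exact h ⟨_, h2, h1.mem hst P hP⟩

/-- the subset of points of `Z` on whose orbits `f` vanishes -/
def Van (Z : Set (PrimeSpectrum (MvPolynomial Idx k))) (f : MvPolynomial Idx k) :
    Set (PrimeSpectrum (MvPolynomial Idx k)) :=
  {P | P ∈ Z ∧ ∀ Γ : MvPolynomial Idx k →ₐ[k] MvPolynomial Idx k, Gen k Γ → Γ f ∈ P.asIdeal}

lemma Van_closed {Z : Set (PrimeSpectrum (MvPolynomial Idx k))} (hZ : IsClosed Z)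
    (f : MvPolynomial Idx k) : IsClosed (Van Z f) := by
  have : Van Z f = Z ∩ PrimeSpectrum.zeroLocus {g | ∃ Γ, Gen k Γ ∧ g = Γ f} := by
    ext P
    rw [Set.mem_inter_iff, PrimeSpectrum.mem_zeroLocus]
    constructor
    · rintro ⟨h1, h2⟩
      refine ⟨h1, ?_⟩
      rintro _ ⟨Γ, hΓ, rfl⟩
      exact h2 Γ hΓ
    · rintro ⟨h1, h2⟩
      exact ⟨h1, fun Γ hΓ => h2 ⟨Γ, hΓ, rfl⟩⟩
  rw [this]
  exact hZ.inter (PrimeSpectrum.isClosed_zeroLocus _)

lemma Van_stb {Z : Set (PrimeSpectrum (MvPolynomial Idx k))} (hZ : Stb Z)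
    (f : MvPolynomial Idx k) : Stb (Van Z f) := by
  intro a b ha hb hab P hP
  refine ⟨hZ a b ha hb hab P hP.1, fun Γ hΓ => ?_⟩
  exact hP.2 _ ((Gen.trans ha hb hab).mul hΓ)

/-- Branch-width is bounded on a closed stable set all of whose points have finite
branch-width. -/
theorem bounded {Z : Set (PrimeSpectrum (MvPolynomial Idx k))} (hZ : IsClosed Z)
    (hG : Z ⊆ Gr k) (hst : Stb Z) (hfin : ∀ P ∈ Z, ∃ w, P ∈ GrW k w) :
    ∃ w, Z ⊆ GrW k w := by
  by_contra hcon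
  push Not at hcon
  set S : Set (Set (PrimeSpectrum (MvPolynomial Idx k))) :=
    {Y | IsClosed Y ∧ Stb Y ∧ Y ⊆ Z ∧ ∀ w, (UU k w ∩ Y).Nonempty} with hS
  obtain ⟨M, hMZ, hM⟩ := zorn_superset_nonempty S (by
    intro c hc hchain hne
    refine ⟨⋂₀ c, ⟨isClosed_sInter fun Y hY => (hc hY).1, ?_, ?_, ?_⟩,
      fun Y hY => Set.sInter_subset_of_mem hY⟩
    · intro a b ha hb hab P hP Y hY
      exact (hc hY).2.1 a b ha hb hab P (hP Y hY)
    · obtain ⟨Y, hY⟩ := hne
      exact (Set.sInter_subset_of_mem hY).trans (hc hY).2.2.1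
    · intro w
      by_contra h
      rw [Set.not_nonempty_iff_eq_empty, Set.sInter_eq_iInter] at h
      have : Nonempty c := hne.to_subtype
      obtain ⟨Y, hY⟩ := (UU_compact (k := k) w).elim_directed_family_closed (fun Y : c => Y.1)
        (fun Y => (hc Y.2).1) h (by
          intro Y Y'
          rcases hchain.total Y.2 Y'.2 with h1 | h1
          · exact ⟨Y, subset_rfl, h1⟩
          · exact ⟨Y', h1, subset_rfl⟩)
      have := (hc Y.2).2.2.2 w
      rw [hY] at this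
      simp at this) Z ⟨hZ, hst, subset_rfl, fun w => by
        by_contra h
        exact hcon w ((subset_GrW_iff hG hst).2 h)⟩
  obtain ⟨⟨m1, m2, m3, m4⟩, hmin⟩ := hM
  -- irreducibility
  have hprop : ∀ f : MvPolynomial Idx k, (∃ P ∈ M, f ∉ P.asIdeal) →
      ∃ w, Van M f ⊆ GrW k w := by
    rintro f ⟨P, hP, hf⟩
    by_contra h
    push Not at h
    have h1 : Van M f ∈ S := by
      refine ⟨Van_closed m1 f, Van_stb m2 f, fun Q hQ => m3 hQ.1, fun w => ?_⟩
      by_contra h2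
      exact h w ((subset_GrW_iff (fun Q hQ => hG (m3 hQ.1)) (Van_stb m2 f)).2 h2)
    have h2 := hmin h1 (fun Q hQ => hQ.1) hP
    exact hf (h2.2 _ .id)
  have hirr : ∀ f g : MvPolynomial Idx k, (∃ P ∈ M, f ∉ P.asIdeal) →
      (∃ P ∈ M, g ∉ P.asIdeal) → ∃ P ∈ M, ∃ Γ : MvPolynomial Idx k →ₐ[k] MvPolynomial Idx k,
        Gen k Γ ∧ f ∉ P.asIdeal ∧ Γ g ∉ P.asIdeal := by
    intro f g hf hg
    by_contra h
    push Not at h
    obtain ⟨w₁, hw₁⟩ := hprop f hf
    obtain ⟨w₂, hw₂⟩ := hprop g hg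
    have h1 : M ⊆ GrW k (max w₁ w₂) := by
      intro P hP
      by_cases h2 : P ∈ Van M f
      · exact GrW_mono (le_max_left _ _) (hw₁ h2)
      · apply GrW_mono (le_max_right _ _)
        apply hw₂
        refine ⟨hP, fun Γ' hΓ' => ?_⟩
        have h3 : ∃ Γ₁ : MvPolynomial Idx k →ₐ[k] MvPolynomial Idx k, Gen k Γ₁ ∧
            Γ₁ f ∉ P.asIdeal := by
          by_contra h4
          push Not at h4
          exact h2 ⟨hP, h4⟩
        obtain ⟨Γ₁, g1, g2⟩ := h3
        obtain ⟨Γ₂, g3, g4⟩ := g1.inv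
        have h5 := h _ (g1.mem m2 P hP) (Γ₂.comp Γ') (g3.mul hΓ') g2
        have h6 : Γ₁ ((Γ₂.comp Γ') g) ∈ P.asIdeal := h5
        have h7 : Γ₁ ((Γ₂.comp Γ') g) = Γ' g := by
          have h8 := AlgHom.congr_fun g4 (Γ' g)
          exact h8
        rwa [h7] at h6
    exact (subset_GrW_iff (m3.trans hG) m2).1 h1 (m4 _)
  -- patterns
  have hpat : ∀ w, ∃ B, Bad w (lv w) B ∧ ∃ P ∈ M, fB k B ∉ P.asIdeal := by
    intro w
    obtain ⟨P, h1, h2⟩ := m4 w
    obtain ⟨B, h3, h4⟩ := mem_UU.1 h1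
    exact ⟨B, h3, P, h2, h4⟩
  choose B hB1 hB2 using hpat
  have hstep : ∀ (m : ℕ) (h : {h : MvPolynomial Idx k // ∃ P ∈ M, h ∉ P.asIdeal}),
      ∃ h' : {h : MvPolynomial Idx k // ∃ P ∈ M, h ∉ P.asIdeal}, h.1 ∣ h'.1 ∧
        ∃ Γ : MvPolynomial Idx k →ₐ[k] MvPolynomial Idx k, Gen k Γ ∧ Γ (fB k (B m)) ∣ h'.1 := by
    rintro m ⟨h, hh⟩
    obtain ⟨P, h1, Γ, h2, h3, h4⟩ := hirr h (fB k (B m)) hh (hB2 m)
    exact ⟨⟨h * Γ (fB k (B m)), P, h1, fun h5 => (P.isPrime.mem_or_mem h5).elim h3 h4⟩,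
      dvd_mul_right _ _, Γ, h2, dvd_mul_left _ _⟩
  choose nx hnx1 Γ hΓ1 hΓ2 using hstep
  obtain ⟨P₀, -, hP₀⟩ := m4 0
  set hh : ℕ → {h : MvPolynomial Idx k // ∃ P ∈ M, h ∉ P.asIdeal} := fun m =>
    Nat.rec ⟨1, P₀, hP₀, fun h => P₀.isPrime.ne_top ((Ideal.eq_top_iff_one _).2 h)⟩
      (fun m h => nx m h) m with hhh
  have hh1 : ∀ m, hh (m + 1) = nx m (hh m) := fun m => rfl
  have hdvd : ∀ m m', m ≤ m' → (hh m).1 ∣ (hh m').1 := by
    intro m m' hmm
    induction m', hmm using Nat.le_induction with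
    | base => exact dvd_rfl
    | succ m' _ ih => exact ih.trans (by rw [hh1]; exact hnx1 _ _)
  set T : Submonoid (MvPolynomial Idx k) :=
    { carrier := {g | ∃ m e : ℕ, g ∣ (hh m).1 ^ e}
      one_mem' := ⟨0, 0, one_dvd _⟩
      mul_mem' := by
        rintro g g' ⟨m, e, h1⟩ ⟨m', e', h2⟩
        refine ⟨max m m', e + e', ?_⟩
        rw [pow_add]
        exact mul_dvd_mul (h1.trans (pow_dvd_pow_of_dvd (hdvd _ _ (le_max_left _ _)) _))
          (h2.trans (pow_dvd_pow_of_dvd (hdvd _ _ (le_max_right _ _)) _)) } with hT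
  have hTmem : ∀ g, g ∈ T ↔ ∃ m e : ℕ, g ∣ (hh m).1 ^ e := fun g => Iff.rfl
  obtain ⟨q, hq1, hq2, hq3⟩ := Ideal.exists_le_prime_disjoint (PrimeSpectrum.vanishingIdeal M) T (by
    rw [Set.disjoint_left]
    intro g hg hg'
    obtain ⟨m, e, h1⟩ := (hTmem g).1 hg'
    obtain ⟨P, hP, h2⟩ := (hh m).2
    have h3 : g ∈ P.asIdeal := (PrimeSpectrum.mem_vanishingIdeal _ _).1 hg P hP
    exact h2 (P.isPrime.mem_of_pow_mem _ (Ideal.mem_of_dvd _ h1 h3)))
  set Q : PrimeSpectrum (MvPolynomial Idx k) := ⟨q, hq1⟩ with hQ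
  have hQM : Q ∈ M := by
    have h1 : Q ∈ PrimeSpectrum.zeroLocus (PrimeSpectrum.vanishingIdeal M : Set _) := by
      rw [PrimeSpectrum.mem_zeroLocus]
      exact hq2
    rwa [PrimeSpectrum.zeroLocus_vanishingIdeal_eq_closure, m1.closure_eq] at h1
  obtain ⟨w, hw⟩ := hfin Q (m3 hQM)
  apply inside_UU hw (hΓ1 w (hh w))
  rw [mem_UU]
  refine ⟨B w, hB1 w, ?_⟩
  intro h1
  have h2 : Γ w (hh w) (fB k (B w)) ∈ q := h1
  refine Set.disjoint_left.1 hq3 h2 ((hTmem _).2 ⟨w + 1, 1, ?_⟩)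
  rw [pow_one, hh1]
  exact hΓ2 w (hh w)

/-- **Chains whose intersection has points of finite branch-width only.** -/
theorem limit_chain (C : ℕ → Set (PrimeSpectrum (MvPolynomial Idx k)))
    (hC : ∀ i, ∃ D : Set (PrimeSpectrum (MvPolynomial Idx k)), IsClosed D ∧ C i = D ∩ Gr k)
    (hanti : Antitone C) (hst : ∀ i, Stb (C i))
    (hfin : ∀ P, (∀ i, P ∈ C i) → ∃ w, P ∈ GrW k w) :
    ∃ i, ∀ j, i ≤ j → C j = C i := by
  have hcl : ∀ i, IsClosed (C i) := by
    intro i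
    obtain ⟨D, h1, h2⟩ := hC i
    rw [h2]
    exact h1.inter Gr_closed
  have hG : ∀ i, C i ⊆ Gr k := by
    intro i
    obtain ⟨D, h1, h2⟩ := hC i
    rw [h2]
    exact Set.inter_subset_right
  have hstI : Stb (⋂ i, C i) := by
    intro a b ha hb hab P hP
    rw [Set.mem_iInter] at hP ⊢
    exact fun i => hst i a b ha hb hab P (hP i)
  have hGI : (⋂ i, C i) ⊆ Gr k := (Set.iInter_subset _ 0).trans (hG 0)
  obtain ⟨w, hw⟩ := bounded (isClosed_iInter hcl) hGI hstI
    (fun P hP => hfin P (Set.mem_iInter.1 hP))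
  have h1 := (subset_GrW_iff hGI hstI).1 hw
  rw [Set.not_nonempty_iff_eq_empty] at h1
  obtain ⟨i₀, h2⟩ := (UU_compact (k := k) w).elim_directed_family_closed C hcl h1
    (fun i j => ⟨max i j, hanti (le_max_left _ _), hanti (le_max_right _ _)⟩)
  have h3 : ∀ i, i₀ ≤ i → C i ⊆ GrW k w := by
    intro i hi
    refine (hanti hi).trans ((subset_GrW_iff (hG i₀) (hst i₀)).2 ?_)
    rw [h2]
    simp
  obtain ⟨i, hi⟩ := chain (w := w) (fun j => C (i₀ + j)) (fun j => ⟨C (i₀ + j), hcl _, by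
      rw [Set.inter_eq_left.2 (h3 _ (by omega))]⟩)
    (fun j j' hjj => hanti (by omega)) (fun j => hst _)
  refine ⟨i₀ + i, fun j hj => ?_⟩
  obtain ⟨j', rfl⟩ : ∃ j', j = i₀ + j' := ⟨j - i₀, by omega⟩
  exact hi j' (by omega)

end Pool.Agent.H229.Sym
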