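import Pool.Agent.H229.Sym.Build

/-!
Twisted slices of Plücker vectors along links.
-/

namespace Pool.Agent.H229.Sym

open Tr Module Pool.Agent.H229

section Twist

variable {K : Type*} [Field K]

/-- the twist by the parity of the number of selected positions -/
def twist (K : Type*) [Field K] (F : List Unit) (c : ℕ) : Fn K →ₗ[K] Fn K where
  toFun u b := ((-1 : ℤˣ) ^ (c * (sel F b).length)) • u b
  map_add' u v := by funext b; simp only [Pi.add_apply, smul_add]
  map_smul' a u := by
    funext b
    simp only [Pi.smul_apply, smul_eq_mul, RingHom.id_apply, Units.smul_def, zsmul_eq_mul]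
    ring

lemma twist_apply (F : List Unit) (c : ℕ) (u : Fn K) (b : ℕ → Bool) :
    twist K F c u b = ((-1 : ℤˣ) ^ (c * (sel F b).length)) • u b := rfl

lemma twist_twist (F : List Unit) (c : ℕ) (u : Fn K) : twist K F c (twist K F c u) = u := by
  funext b
  rw [twist_apply, twist_apply, smul_smul, Int.units_mul_self, one_smul]

lemma sel_length_eq {α β : Type*} (L : List α) (M : List β) (h : L.length = M.length)
    (b : ℕ → Bool) : (sel L b).length = (sel M b).length := by
  induction L generalizing M b with
  | nil =>
    have : M = [] := List.length_eq_zero_iff.1 (by simpa using h.symm)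
    subst this; rfl
  | cons a L ih =>
    cases M with
    | nil => simp at h
    | cons c M =>
      have := ih M (by simpa using h) (fun n => b (n + 1))
      simp only [sel_cons]
      cases b 0
      · simpa using this
      · simpa using this

variable {V : Type*} [AddCommGroup V] [Module K V]

lemma twist_Usp [FiniteDimensional K V] {φ : ExteriorAlgebra K V →ₗ[K] K} (hφ : IsVol φ)
    (L₁ A L₂ : List V) (F : List Unit) (hF : F.length = A.length) (c : ℕ) :
    (Usp φ L₁ A L₂).map (twist K F c) = Usp φ L₁ A L₂ := by
  have hle : (Usp φ L₁ A L₂).map (twist K F c) ≤ Usp φ L₁ A L₂ := by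
    rw [Usp, Submodule.map_span, Submodule.span_le]
    rintro _ ⟨_, ⟨d, rfl⟩, rfl⟩
    simp only
    have h : ∃ ε : ℤˣ, twist K F c (fun b => φ (prodL K (sel L₁ d.1) * prodL K (sel A b) *
        prodL K (sel L₂ d.2))) = (((ε : ℤ) : K)) • (fun b => φ (prodL K (sel L₁ d.1) *
        prodL K (sel A b) * prodL K (sel L₂ d.2))) := by
      refine ⟨(-1) ^ (c * (finrank K V + (sel L₁ d.1).length + (sel L₂ d.2).length)), ?_⟩
      funext b
      rw [twist_apply, Pi.smul_apply, smul_eq_mul, Units.smul_def, zsmul_eq_mul]
      by_cases h0 : φ (prodL K (sel L₁ d.1) * prodL K (sel A b) * prodL K (sel L₂ d.2)) = 0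
      · rw [h0, mul_zero, mul_zero]
      · congr 2
        rw [← prodL_append, ← prodL_append] at h0
        have h1 := ((hφ _).1 h0).1
        rw [List.length_append, List.length_append] at h1
        rw [← h1, sel_length_eq F A hF]
        have e : c * ((sel L₁ d.1).length + (sel A b).length + (sel L₂ d.2).length +
            (sel L₁ d.1).length + (sel L₂ d.2).length) = c * (sel A b).length +
            2 * (c * ((sel L₁ d.1).length + (sel L₂ d.2).length)) := by ring
        rw [e, pow_add, pow_mul (-1 : ℤˣ) 2]
        simp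
    obtain ⟨ε, hε⟩ := h
    rw [SetLike.mem_coe, hε]
    exact Submodule.smul_mem _ _ (Submodule.subset_span ⟨d, rfl⟩)
  refine le_antisymm hle ?_
  intro u hu
  refine ⟨twist K F c u, hle ⟨u, hu, rfl⟩, twist_twist F c u⟩

end Twist

section Main

variable {α : Type*} [DecidableEq α]

lemma nct_map (P : List α) (C : Finset α) :
    nct (P.map fun a => some (decide (a ∈ C))) = (P.filter fun a => decide (a ∈ C)).length := by
  induction P with
  | nil => rfl
  | cons a P ih =>
    by_cases h : a ∈ C
    · simp [nct, h, ih]
    · simp [nct, h, ih]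

lemma nct_none (n : ℕ) : nct (List.replicate n none) = 0 := by
  induction n with
  | zero => rfl
  | succ n ih => simpa [List.replicate_succ, nct] using ih

lemma sg_some (P : List α) (C : Finset α) (ρ : List (Option Bool)) (b : ℕ → Bool) :
    sg ((P.map fun a => some (decide (a ∈ C))) ++ ρ) b = sg ρ b := by
  induction P with
  | nil => rfl
  | cons a P ih => simpa [sg] using ih

lemma sg_none {β : Type*} (F : List β) (Q : List α) (C : Finset α) (b : ℕ → Bool) :
    sg (List.replicate F.length none ++ Q.map fun a => some (decide (a ∈ C))) b =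
      (-1) ^ (nct (Q.map fun a => some (decide (a ∈ C))) * (sel F b).length) := by
  induction F generalizing b with
  | nil =>
    simp only [List.length_nil, List.replicate_zero, List.nil_append, sel, mul_zero, pow_zero]
    have := sg_some Q C [] b
    rw [List.append_nil] at this
    rw [this]
    rfl
  | cons v F ih =>
    rw [List.length_cons, List.replicate_succ, List.cons_append, sg, ih, nct_append, nct_none,
      zero_add, sel_cons]
    by_cases hb : b 0 = true
    · rw [if_pos hb, if_pos hb, List.length_cons, mul_add, mul_one, pow_add, mul_comm]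
    · rw [if_neg hb, if_neg hb, one_mul]

variable [Fintype α]
  {K : Type*} [Field K] {V : Type*} [AddCommGroup V] [Module K V]

/-- twisted slices of a Plücker vector along a link -/
theorem link_tsl [FiniteDimensional K V] {φ : ExteriorAlgebra K V →ₗ[K] K} (hφ : IsVol φ)
    (x : α → V) (hx : Submodule.span K (Set.range x) = ⊤) (L₁ P F Q L₂ : List α)
    (hnd : (L₁ ++ (P ++ F ++ Q) ++ L₂).Nodup)
    (huniv : (L₁ ++ (P ++ F ++ Q) ++ L₂).toFinset = Finset.univ)
    (hs : ∀ X : Finset α, F.toFinset ⊆ X → X ⊆ (P ++ F ++ Q).toFinset →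
      conn (rkx K x) F.toFinset ≤ conn (rkx K x) X)
    (heq : conn (rkx K x) (P ++ F ++ Q).toFinset = conn (rkx K x) F.toFinset)
    (hpar : Even (rkx K x (P ++ F ++ Q).toFinset + rkx K x F.toFinset)) :
    ∃ π : List (Option Bool), π.length = (P ++ F ++ Q).length ∧ free π = F.length ∧
      Even (nct π) ∧
      (Usp φ (L₁.map x) ((P ++ F ++ Q).map x) (L₂.map x)).map (tsl K π) =
        Usp φ ((L₁ ++ P).map x) (F.map x) ((Q ++ L₂).map x) := by
  classical
  set r := rkx K x with hr
  have hrk : IsRk r := rkx_isRk x
  have h0 : r ∅ = 0 := rkx_empty x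
  have huniv' : ∀ a : α, a ∈ L₁ ∨ a ∈ P ∨ a ∈ F ∨ a ∈ Q ∨ a ∈ L₂ := by
    intro a
    have : a ∈ (L₁ ++ (P ++ F ++ Q) ++ L₂).toFinset := by rw [huniv]; simp
    simp only [List.mem_toFinset, List.mem_append] at this
    tauto
  have hruniv : r Finset.univ = finrank K V := by
    rw [hr, rkx, Finset.coe_univ, Set.image_univ, hx, finrank_top]
  -- pairwise disjointness
  have hnd' := hnd
  simp only [List.nodup_append, List.mem_append] at hnd'
  set D : Finset α := (P ++ Q).toFinset with hD
  set T : Finset α := (L₁ ++ L₂).toFinset with hT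
  have hFdis : ∀ a ∈ F, a ∉ P ∧ a ∉ Q ∧ a ∉ L₁ ∧ a ∉ L₂ := by
    intro a ha
    refine ⟨?_, ?_, ?_, ?_⟩
    · intro h; exact hnd'.1.2.1.1.2.2 a h a ha rfl
    · intro h; exact hnd'.1.2.1.2.2 a (Or.inr ha) a h rfl
    · intro h; exact hnd'.1.2.2 a h a (Or.inl (Or.inr ha)) rfl
    · intro h; exact hnd'.2.2 a (Or.inr (Or.inl (Or.inr ha))) a h rfl
  have hDdis : ∀ a ∈ D, a ∉ L₁ ∧ a ∉ L₂ := by
    intro a ha
    rw [hD, List.mem_toFinset, List.mem_append] at ha
    refine ⟨?_, ?_⟩
    · intro h
      rcases ha with ha | ha
      · exact hnd'.1.2.2 a h a (Or.inl (Or.inl ha)) rfl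
      · exact hnd'.1.2.2 a h a (Or.inr ha) rfl
    · intro h
      rcases ha with ha | ha
      · exact hnd'.2.2 a (Or.inr (Or.inl (Or.inl ha))) a h rfl
      · exact hnd'.2.2 a (Or.inr (Or.inr ha)) a h rfl
  have hcompl : ∀ Y ⊆ D, (F.toFinset ∪ Y)ᶜ = T ∪ (D \ Y) := by
    intro Y hY
    ext a
    have h1 := huniv' a
    simp only [Finset.mem_compl, Finset.mem_union, List.mem_toFinset, hT, List.mem_append,
      Finset.mem_sdiff, not_or]
    constructor
    · rintro ⟨h2, h3⟩
      have : a ∈ D ↔ a ∈ P ∨ a ∈ Q := by rw [hD, List.mem_toFinset, List.mem_append]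
      tauto
    · rintro (h | h)
      · refine ⟨fun h2 => ?_, fun h2 => ?_⟩
        · have := hFdis a h2; tauto
        · have := hDdis a (hY h2); tauto
      · refine ⟨fun h2 => ?_, h.2⟩
        have h3 := hFdis a h2
        have h4 := h.1
        rw [hD, List.mem_toFinset, List.mem_append] at h4
        tauto
  have hADT : F.toFinset ∪ D ∪ T = Finset.univ := by
    ext a
    have h1 := huniv' a
    simp only [Finset.mem_union, List.mem_toFinset, hT, hD, List.mem_append, Finset.mem_univ,
      iff_true]
    tauto
  obtain ⟨C, hCD, c1, c2, c3⟩ := linking D r hrk F.toFinset T (conn r F.toFinset) (by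
    intro Y hY
    have h1 := hs (F.toFinset ∪ Y) Finset.subset_union_left (by
      intro a ha
      simp only [Finset.mem_union, List.mem_toFinset, List.mem_append] at ha ⊢
      rcases ha with ha | ha
      · exact Or.inl (Or.inr ha)
      · have := hY ha
        rw [hD, List.mem_toFinset, List.mem_append] at this
        tauto)
    have h2 := hrk.le_add h0 (F.toFinset ∪ Y)
    rw [hADT, h0, ← hcompl Y hY]
    have h3 : conn r (F.toFinset ∪ Y) = r (F.toFinset ∪ Y) + r (F.toFinset ∪ Y)ᶜ -
      r Finset.univ := rfl
    omega)
  rw [h0, zero_add] at c1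
  rw [hADT] at c2 c3
  rw [h0, add_zero] at c3
  set M₁ : List V := (P.filter fun a => decide (a ∈ C)).map x with hM₁
  set M₂ : List V := (Q.filter fun a => decide (a ∈ C)).map x with hM₂
  obtain ⟨m₁, hm₁⟩ := exists_bits x P C
  obtain ⟨m₂, hm₂⟩ := exists_bits x Q C
  set π : List (Option Bool) := (P.map fun a => some (decide (a ∈ C))) ++
    List.replicate F.length none ++ (Q.map fun a => some (decide (a ∈ C))) with hπ
  have hlen : π.length = (P ++ F ++ Q).length := by simp [hπ]
  have hfree : free π = F.length := by
    rw [hπ, free_append, free_append, free_map_some, free_none, free_map_some]; omega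
  have hsel : ∀ b, sel ((P ++ F ++ Q).map x) (fill π b) = M₁ ++ sel (F.map x) b ++ M₂ := by
    intro b
    rw [List.map_append, List.map_append, sel_append, sel_append]
    congr 1
    · congr 1
      · rw [hM₁, ← sel_fill_some x P C b]
        refine sel_congr _ fun n hn => ?_
        rw [List.length_map] at hn
        rw [hπ, List.append_assoc, fill_append_left _ _ _ (by simpa using hn)]
      · rw [← sel_fill_none (F.map x) b]
        refine sel_congr _ fun n hn => ?_
        rw [List.length_map] at hn ⊢
        have e1 : P.length = (P.map fun a => some (decide (a ∈ C))).length := by simp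
        rw [hπ, List.append_assoc, e1, fill_append_right, free_map_some,
          fill_append_left _ _ _ (by simpa using hn), List.length_map]
        rfl
    · rw [hM₂, ← sel_fill_some x Q C (fun n => b (n + F.length))]
      refine sel_congr _ fun n hn => ?_
      have e1 : (List.map x P ++ List.map x F).length =
        ((P.map fun a => some (decide (a ∈ C))) ++ List.replicate F.length none).length := by simp
      rw [hπ, e1, fill_append_right, free_append, free_map_some, free_none, zero_add]
  have hCc : nct π = C.card := by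
    rw [hπ, nct_append, nct_append, nct_none, nct_map, nct_map, add_zero]
    have hCl' : ((P.filter fun a => decide (a ∈ C)) ++
        (Q.filter fun a => decide (a ∈ C))).toFinset = C := by
      ext a
      simp only [List.mem_toFinset, List.mem_append, List.mem_filter, decide_eq_true_eq]
      constructor
      · rintro (h | h)
        · exact h.2
        · exact h.2
      · intro h
        have := hCD h
        rw [hD, List.mem_toFinset, List.mem_append] at this
        tauto
    have hCnd' : ((P.filter fun a => decide (a ∈ C)) ++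
        (Q.filter fun a => decide (a ∈ C))).Nodup := by
      have h1 : (P ++ Q).Nodup := by
        rw [List.nodup_append]
        refine ⟨hnd'.1.2.1.1.1, hnd'.1.2.1.2.1, ?_⟩
        intro a ha b hb
        exact hnd'.1.2.1.2.2 a (Or.inl ha) b hb
      rw [← List.filter_append]
      exact h1.filter _
    have h := List.toFinset_card_of_nodup hCnd'
    rw [hCl'] at h
    rw [h, List.length_append]
  have hcard : r (P ++ F ++ Q).toFinset = r F.toFinset + C.card := by
    have u1 : ∀ A : Finset α, r (A ∪ C) ≤ r A + C.card := by
      intro A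
      have := hrk.submod A C
      have h2 := hrk.mono ∅ (A ∩ C) (Finset.empty_subset _)
      omega
    have hE : (P ++ F ++ Q).toFinset = F.toFinset ∪ D := by
      ext a
      simp only [List.mem_toFinset, List.mem_append, Finset.mem_union, hD]
      tauto
    have hEc : (F.toFinset ∪ D)ᶜ = T := by
      rw [hcompl D subset_rfl, Finset.sdiff_self, Finset.union_empty]
    have hFc' : (F.toFinset)ᶜ = T ∪ D := by
      have := hcompl ∅ (Finset.empty_subset _)
      rwa [Finset.union_empty, Finset.sdiff_empty] at this
    have a1 := hrk.le_add h0 (F.toFinset ∪ D)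
    have a2 := hrk.le_add h0 F.toFinset
    have a3 : conn r F.toFinset = r F.toFinset + r F.toFinsetᶜ - r Finset.univ := rfl
    have a4 : conn r (P ++ F ++ Q).toFinset = r (P ++ F ++ Q).toFinset +
      r (P ++ F ++ Q).toFinsetᶜ - r Finset.univ := rfl
    rw [heq, hE, hEc] at a4
    rw [hEc] at a1
    have a5 := u1 F.toFinset
    have a6 := u1 T
    have a7 := hrk.mono (F.toFinset ∪ C) (F.toFinset ∪ D) (Finset.union_subset_union_right hCD)
    have a8 := hrk.mono (T ∪ C) (T ∪ D) (Finset.union_subset_union_right hCD)
    rw [hE]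
    rw [hFc'] at a2 a3
    omega
  have heven : Even (nct π) := by
    rw [hCc]
    rw [hcard] at hpar
    have h : Even (2 * r F.toFinset + C.card) := by
      have e : 2 * r F.toFinset + C.card = r F.toFinset + C.card + r F.toFinset := by ring
      rw [e]; exact hpar
    exact (Nat.even_add.1 h).1 (even_two_mul _)
  refine ⟨π, hlen, hfree, heven, ?_⟩
  suffices hslice : (Usp φ (L₁.map x) ((P ++ F ++ Q).map x) (L₂.map x)).map (slice K π) =
        Usp φ ((L₁ ++ P).map x) (F.map x) ((Q ++ L₂).map x) by
    have e : tsl K π = (twist K (List.replicate F.length ())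
        (nct (Q.map fun a => some (decide (a ∈ C))))).comp (slice K π) := by
      apply LinearMap.ext
      intro u
      funext b
      rw [tsl_apply, LinearMap.comp_apply, twist_apply, slice_apply, hπ, List.append_assoc,
        sg_some, sg_none, sel_length_eq F (List.replicate F.length ()) (by simp)]
    rw [e, Submodule.map_comp, hslice, twist_Usp hφ _ _ _ _ (by simp)]
  have hUsl := Usp_slice φ (L₁.map x) (P.map x) (F.map x) (Q.map x) (L₂.map x) π M₁ M₂ (by
    simpa only [List.map_append] using hsel)
  have hle := Usp_slice_le φ (L₁.map x) (P.map x) (F.map x) (Q.map x) (L₂.map x) m₁ m₂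
  rw [← hm₁, ← hm₂, ← hM₁, ← hM₂, ← hUsl] at hle
  simp only [List.map_append] at *
  -- ranks
  have hspan : ∀ ℓ : List α, spanL K (ℓ.map x) = Submodule.span K (x '' (ℓ.toFinset : Set α)) :=
    spanL_map x
  have hCl : ((P.filter fun a => decide (a ∈ C)) ++ (Q.filter fun a => decide (a ∈ C))).toFinset =
      C := by
    ext a
    simp only [List.mem_toFinset, List.mem_append, List.mem_filter, decide_eq_true_eq]
    constructor
    · rintro (h | h)
      · exact h.2
      · exact h.2
    · intro h
      have := hCD h
      rw [hD, List.mem_toFinset, List.mem_append] at this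
      tauto
  have hCnd : ((P.filter fun a => decide (a ∈ C)) ++ (Q.filter fun a => decide (a ∈ C))).Nodup := by
    have h1 : (P ++ Q).Nodup := by
      rw [List.nodup_append]
      refine ⟨hnd'.1.2.1.1.1, hnd'.1.2.1.2.1, ?_⟩
      intro a ha b hb
      exact hnd'.1.2.1.2.2 a (Or.inl ha) b hb
    rw [← List.filter_append]
    exact h1.filter _
  have hM : spanL K (M₁ ++ M₂) = Submodule.span K (x '' (C : Set α)) := by
    rw [hM₁, hM₂, ← List.map_append, hspan, hCl]
  have hMl : (M₁ ++ M₂).length = C.card := by
    have h := List.toFinset_card_of_nodup hCnd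
    rw [hCl] at h
    rw [hM₁, hM₂, ← List.map_append, List.length_map, h]
  have hTl : spanL K (L₁.map x ++ L₂.map x) = Submodule.span K (x '' (T : Set α)) := by
    rw [← List.map_append, hspan]
  obtain ⟨s', s1, s2⟩ := rank_flat hφ (L₁.map x) M₁ (F.map x) M₂ (L₂.map x) (by
      rw [hM, hMl, ← c1]; rfl) (by
      rw [hM, hTl, hspan, ← Submodule.span_union, ← Submodule.span_union, ← Set.image_union,
        ← Set.image_union, ← Finset.coe_union, ← Finset.coe_union]
      apply Submodule.eq_top_of_finrank_eq
      rw [← hruniv, ← c2]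
      rfl)
  rw [hM, hTl, hspan, hMl, ← rkx_union, ← rkx_union, ← hr] at s1
  obtain ⟨s'', t1, t2⟩ := finrank_Usp hφ (L₁.map x ++ P.map x) (F.map x) (Q.map x ++ L₂.map x) (by
    have e1 : L₁.map x ++ P.map x ++ (Q.map x ++ L₂.map x) = (L₁ ++ P ++ (Q ++ L₂)).map x := by
      simp
    rw [e1, hspan, hspan, ← Submodule.span_union, ← Set.image_union, ← Finset.coe_union]
    have e2 : F.toFinset ∪ (L₁ ++ P ++ (Q ++ L₂)).toFinset = Finset.univ := by
      ext a
      have h1 := huniv' a
      simp only [Finset.mem_union, List.mem_toFinset, List.mem_append, Finset.mem_univ,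
        iff_true]
      tauto
    rw [e2, Finset.coe_univ, Set.image_univ, hx])
  have hFc : (L₁ ++ P ++ (Q ++ L₂)).toFinset = F.toFinsetᶜ := by
    ext a
    have h1 := huniv' a
    simp only [List.mem_toFinset, List.mem_append, Finset.mem_compl]
    constructor
    · intro h h2
      have := hFdis a h2
      tauto
    · intro h; tauto
  have e1 : L₁.map x ++ P.map x ++ (Q.map x ++ L₂.map x) = (L₁ ++ P ++ (Q ++ L₂)).map x := by
    simp
  rw [e1, hspan, hspan, hFc] at t1
  have t1' : s'' + r Finset.univ = r F.toFinset + r F.toFinsetᶜ := by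
    rw [hruniv]; exact t1
  have hs'' : s'' = conn r F.toFinset := by
    have h3 : conn r F.toFinset = r F.toFinset + r F.toFinsetᶜ - r Finset.univ := rfl
    omega
  have hfd := Usp_fd φ (L₁.map x ++ P.map x) (F.map x) (Q.map x ++ L₂.map x)
  refine Submodule.eq_of_le_of_finrank_le hle ?_
  rw [t2, hUsl, s2]
  apply Nat.pow_le_pow_right (by norm_num)
  rw [← hruniv] at s1
  omega

end Main

end Pool.Agent.H229.Sym
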