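import Pool.Agent.H229.Transfer

/-!
Signs of slices.
-/

namespace Pool.Agent.H229.Sym

open Tr MvPolynomial Pool.Agent.H229

/-- the number of contracted positions of a pattern -/
def nct : List (Option Bool) → ℕ
  | [] => 0
  | none :: π => nct π
  | some true :: π => nct π + 1
  | some false :: π => nct π

/-- the sign of moving the contracted positions in front of the selected free positions -/
def sg : List (Option Bool) → (ℕ → Bool) → ℤˣ
  | [], _ => 1
  | none :: π, b => (if b 0 then (-1) ^ nct π else 1) * sg π (fun m => b (m + 1))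
  | some _ :: π, b => sg π b

lemma nct_append (π ρ : List (Option Bool)) : nct (π ++ ρ) = nct π + nct ρ := by
  induction π with
  | nil => simp [nct]
  | cons x π ih =>
    rcases x with _ | c
    · simp [nct, ih]
    · cases c
      · simp [nct, ih]
      · simp only [List.cons_append, nct, ih]; omega

lemma nct_pcomp (π ρ : List (Option Bool)) (h : free π = ρ.length) :
    nct (pcomp π ρ) = nct π + nct ρ := by
  induction π generalizing ρ with
  | nil =>
    have : ρ = [] := List.length_eq_zero_iff.1 (by simpa [free] using h.symm)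
    subst this; rfl
  | cons x π ih =>
    rcases x with _ | c
    · cases ρ with
      | nil => simp [free] at h
      | cons y ρ =>
        simp only [free, List.length_cons, Nat.add_right_cancel_iff] at h
        rcases y with _ | c
        · simp only [pcomp, nct, ih _ h]
        · cases c
          · simp only [pcomp, nct, ih _ h]
          · simp only [pcomp, nct, ih _ h]; omega
    · simp only [free] at h
      cases c
      · simp only [pcomp, nct, ih _ h]
      · simp only [pcomp, nct, ih _ h]; omega

lemma sg_append (π ρ : List (Option Bool)) (hρ : Even (nct ρ)) (b : ℕ → Bool) :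
    sg (π ++ ρ) b = sg π b * sg ρ (fun m => b (m + free π)) := by
  induction π generalizing b with
  | nil => simp [sg, free]
  | cons x π ih =>
    rcases x with _ | c
    · simp only [List.cons_append, sg, free, ih, nct_append, pow_add, hρ.neg_one_pow, mul_one]
      rw [mul_assoc]
      congr 3
    · simp only [List.cons_append, sg, free, ih]

lemma sg_congr (π : List (Option Bool)) {b b' : ℕ → Bool} (h : ∀ n < free π, b n = b' n) :
    sg π b = sg π b' := by
  induction π generalizing b b' with
  | nil => rfl
  | cons x π ih =>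
    rcases x with _ | c
    · simp only [free] at h
      simp only [sg]
      rw [h 0 (by omega), ih (b := fun m => b (m + 1)) (b' := fun m => b' (m + 1))
        (fun n hn => h _ (by omega))]
    · simp only [free] at h
      simp only [sg]
      exact ih h

lemma sg_pcomp (π ρ : List (Option Bool)) (h : free π = ρ.length) :
    ∃ ε : ℤˣ, ∀ b, sg π (fill ρ b) * sg ρ b = ε * sg (pcomp π ρ) b := by
  induction π generalizing ρ with
  | nil =>
    have : ρ = [] := List.length_eq_zero_iff.1 (by simpa [free] using h.symm)
    subst this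
    exact ⟨1, fun b => by simp [sg, pcomp]⟩
  | cons x π ih =>
    rcases x with _ | c
    · cases ρ with
      | nil => simp [free] at h
      | cons y ρ =>
        simp only [free, List.length_cons, Nat.add_right_cancel_iff] at h
        obtain ⟨ε, hε⟩ := ih ρ h
        rcases y with _ | c
        · refine ⟨ε, fun b => ?_⟩
          simp only [pcomp, sg, fill]
          have h1 := hε (fun m => b (m + 1))
          by_cases hb : b 0 = true
          · rw [if_pos hb, if_pos hb, if_pos hb, nct_pcomp _ _ h, pow_add, mul_mul_mul_comm]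
            rw [h1]
            ac_rfl
          · rw [if_neg hb, if_neg hb, if_neg hb, one_mul, one_mul, one_mul]
            exact h1
        · cases c
          · refine ⟨ε, fun b => ?_⟩
            simp only [pcomp, sg, fill, Bool.false_eq_true, if_false, one_mul]
            exact hε b
          · refine ⟨(-1) ^ nct π * ε, fun b => ?_⟩
            simp only [pcomp, sg, fill, if_true]
            rw [mul_assoc, mul_assoc]
            congr 1
            exact hε b
    · simp only [free] at h
      obtain ⟨ε, hε⟩ := ih ρ h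
      refine ⟨ε, fun b => ?_⟩
      simp only [pcomp, sg]
      exact hε b

lemma units_mul_self (ε : ℤˣ) : ε * ε = 1 := Int.units_mul_self ε

variable {R : ℕ}

/-- the condition at the root for normalised trees -/
def NormalAt {A : Type*} [CommRing A] (t : Tr (Fin (cR R) → A)) : Prop :=
  ∀ f, Desc t.ht f t → f.ht = t.ht → ∃ (π : List (Option Bool)) (ε : ℤˣ), π.length = t.leaves ∧
    free π = f.leaves ∧ Even (nct π) ∧
    ∀ b a, evalT f b a = (ε * sg π b) • evalT t (fill π b) a

/-- normalised trees -/
def Normal {A : Type*} [CommRing A] : Tr (Fin (cR R) → A) → Prop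
  | .leaf h M => NormalAt (Tr.leaf h M : Tr (Fin (cR R) → A))
  | .node h M l r => NormalAt (Tr.node h M l r) ∧ Normal l ∧ Normal r

lemma Normal.at {A : Type*} [CommRing A] {t : Tr (Fin (cR R) → A)} (h : Normal t) :
    NormalAt t := by
  cases t with
  | leaf _ _ => exact h
  | node _ _ _ _ => exact h.1

lemma Normal.desc {A : Type*} [CommRing A] {t f : Tr (Fin (cR R) → A)} (h : Normal t)
    {s : ℕ} (hd : Desc s f t) : Normal f := by
  induction hd with
  | refl _ => exact h
  | left _ _ ih => exact ih h.2.1
  | right _ _ ih => exact ih h.2.2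

lemma Emb.slice {A : Type*} [CommRing A] {s t : Tr (Fin (cR R) → A)} (h : Emb Eq s t)
    (ht : Normal t) : ∃ (π : List (Option Bool)) (ε : ℤˣ), π.length = t.leaves ∧
      free π = s.leaves ∧ Even (nct π) ∧
      ∀ b a, evalT s b a = (ε * sg π b) • evalT t (fill π b) a := by
  induction h with
  | @leaf k M M' hM =>
    subst hM
    refine ⟨[none], 1, rfl, rfl, ⟨0, rfl⟩, fun b a => ?_⟩
    simp only [sg, nct, pow_zero, ite_self, mul_one, one_smul]
    rfl
  | @node k M M' l₁ r₁ l₂ r₂ hM hl hr ihl ihr =>
    subst hM
    obtain ⟨π, ε, h1, h2, hev, h3⟩ := ihl ht.2.1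
    obtain ⟨ρ, ε', h4, h5, hev', h6⟩ := ihr ht.2.2
    refine ⟨π ++ ρ, ε * ε', by simp [Tr.leaves, h1, h4], by simp [Tr.leaves, free_append, h2, h5],
      by rw [nct_append]; exact hev.add hev', ?_⟩
    intro b a
    simp only [evalT]
    rw [Finset.smul_sum]
    refine Finset.sum_congr rfl fun i _ => ?_
    rw [Finset.smul_sum]
    refine Finset.sum_congr rfl fun j _ => ?_
    have e1 : evalT l₁ b i = (ε * sg π b) • evalT l₂ (fill (π ++ ρ) b) i := by
      rw [h3]
      congr 1
      exact evalT_congr _ (fun n hn => (fill_append_left _ _ _ (by omega)).symm) _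
    have e2 : evalT r₁ (fun n => b (n + l₁.leaves)) j =
        (ε' * sg ρ (fun n => b (n + l₁.leaves))) •
          evalT r₂ (fun n => fill (π ++ ρ) b (n + l₂.leaves)) j := by
      rw [h6]
      congr 1
      refine evalT_congr _ (fun n hn => ?_) _
      rw [← h1, fill_append_right, h2]
    rw [e1, e2, sg_append π ρ hev', h2]
    simp only [Units.smul_def, zsmul_eq_mul, Units.val_mul, Int.cast_mul]
    ring
  | @cut s f t hd hh he ih =>
    obtain ⟨π, ε, h1, h2, hev, h3⟩ := ht.at f hd hh
    obtain ⟨ρ, ε', h4, h5, hev', h6⟩ := ih (ht.desc hd)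
    obtain ⟨ε'', h7⟩ := sg_pcomp π ρ (by omega)
    refine ⟨pcomp π ρ, ε * ε' * ε'', by rw [pcomp_length, h1],
      by rw [pcomp_free _ _ (by omega), h5],
      by rw [nct_pcomp _ _ (by omega)]; exact hev.add hev', ?_⟩
    intro b a
    rw [h6, h3, fill_pcomp _ _ (by omega), smul_smul]
    congr 1
    have h8 := h7 b
    calc ε' * sg ρ b * (ε * sg π (fill ρ b)) = ε * ε' * (sg π (fill ρ b) * sg ρ b) := by
          ac_rfl
      _ = ε * ε' * ε'' * sg (pcomp π ρ) b := by rw [h8]; ac_rfl

/-- The Noetherianity theorem for normalised trees of tensors. -/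
theorem tree_noeth {k : Type*} [Field k] (N : ℕ) (K : ℕ → Type*) [∀ i, Field (K i)]
    [∀ i, Algebra k (K i)] (t : ∀ i, Tr (Fin (cR R) → K i)) (hN : ∀ i, Normal (t i))
    (hb : ∀ i, (t i).Bdd N) (a₀ : Fin R) (f : ℕ → MvPolynomial (ℕ → Bool) k)
    (h0 : ∀ i, aeval (fun b => evalT (t i) b a₀) (f i) ≠ 0) :
    ∃ i j, i < j ∧ ∃ (π : List (Option Bool)) (ε : ℤˣ), π.length = (t j).leaves ∧
      free π = (t i).leaves ∧ Even (nct π) ∧
      aeval (fun b => (ε * sg π b) • evalT (t j) (fill π b) a₀) (f i) ≠ 0 := by
  choose ω hω using fun i => exists_reLab (t i)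
  set S : ℕ → Tr Unit := fun i => (t i).shape with hS
  have hSl : ∀ i, (S i).leaves = (t i).leaves := fun i => leaves_map _ _
  -- the generic tree
  set g : Tr Unit → Tr (Fin (cR R) → MvPolynomial (Vr (cR R)) k) := fun S =>
    reLab S (fun n q => X (Vr.mk n q)) with hg
  set F : ℕ → MvPolynomial (Vr (cR R)) k := fun i =>
    aeval (fun b => evalT (g (S i)) b a₀) (f i) with hF
  have hsupp : ∀ (n₀ : ℕ) (u : Tr Unit) (ν : ℕ → ℕ), (∀ n < u.size, ν n < n₀) →
      ∀ (b : ℕ → Bool) (a : Fin R),
      evalT (reLab u (fun n q => (X (Vr.mk (ν n) q) : MvPolynomial (Vr (cR R)) k))) b a ∈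
        MvPolynomial.supported k {v : Vr (cR R) | v.pos < n₀} := by
    intro n₀ u
    induction u with
    | leaf h x =>
      intro ν hν b a
      simp only [reLab, evalT]
      exact (X_mem_supported (R := k)).2 (hν 0 (by simp))
    | node h x l r ihl ihr =>
      intro ν hν b a
      simp only [size_node] at hν
      simp only [reLab, evalT]
      refine Subalgebra.sum_mem _ fun i _ => Subalgebra.sum_mem _ fun j _ => ?_
      refine Subalgebra.mul_mem _ (Subalgebra.mul_mem _ ?_ ?_) ?_
      · exact (X_mem_supported (R := k)).2 (hν 0 (by omega))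
      · exact ihl (fun n => ν (n + 1)) (fun n hn => hν _ (by omega)) _ _
      · exact ihr (fun n => ν (n + 1 + l.size)) (fun n hn => hν _ (by omega)) _ _
  have hFs : ∀ i, F i ∈ MvPolynomial.supported k {v : Vr (cR R) | v.pos < (S i).size} := by
    intro i
    have h1 : ∀ p : MvPolynomial (ℕ → Bool) k, aeval (fun b => evalT (g (S i)) b a₀) p ∈
        MvPolynomial.supported k {v : Vr (cR R) | v.pos < (S i).size} := by
      intro p
      induction p using MvPolynomial.induction_on with
      | C x => rw [aeval_C]; exact Subalgebra.algebraMap_mem _ _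
      | add p q hp hq => rw [map_add]; exact Subalgebra.add_mem _ hp hq
      | mul_X p n hp =>
        rw [map_mul, aeval_X]
        exact Subalgebra.mul_mem _ hp (hsupp _ (S i) id (fun n hn => hn) _ _)
    exact h1 _
  have hev : ∀ (i j : ℕ) (ν : ℕ → Fin (cR R) → K j),
      aeval (fun v : Vr (cR R) => ν v.pos v.crd) (F i) =
        aeval (fun b => evalT (reLab (S i) ν) b a₀) (f i) := by
    intro i j ν
    rw [hF]
    simp only
    rw [comp_aeval_apply]
    congr 2
    funext b
    have := evalT_map (aeval (R := k) (fun v : Vr (cR R) => ν v.pos v.crd)).toRingHom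
      (g (S i)) b a₀
    simp only [AlgHom.toRingHom_eq_coe, RingHom.coe_coe] at this
    rw [← this, hg]
    simp only
    rw [reLab_map]
    simp
  obtain ⟨i, j, hij, σ, hcut, hne⟩ := noeth (cR R) N K S (fun i => by
      have := hb i
      rw [← hω i] at this
      exact (reLab_bdd _ _ _).1 this) ω F hFs (fun i => by
      rw [hev i i (ω i), hω i]; exact h0 i)
  refine ⟨i, j, hij, ?_⟩
  have hE := hcut.emb (ω j)
  rw [hω j] at hE
  obtain ⟨π, ε, h1, h2, h3, h4⟩ := Emb.slice hE (hN j)
  refine ⟨π, ε, h1, ?_, h3, ?_⟩
  · rw [h2, reLab_leaves]; exact hSl i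
  · rw [hev i j (fun n => ω j (σ n))] at hne
    have : (fun b => evalT (reLab (S i) fun n => ω j (σ n)) b a₀) =
        (fun b => (ε * sg π b) • evalT (t j) (fill π b) a₀) := by
      funext b; exact h4 b a₀
    rwa [this] at hne

end Pool.Agent.H229.Sym
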